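import Mathlib

set_option autoImplicit false

/-!
# Shared definitions for the general Seshadri bound
-/

namespace Pool.Agent.H643Z.Gen

/-- The polynomial ring in two variables. -/
abbrev BB (K : Type*) [Field K] : Type _ := MvPolynomial (Fin 2) K

/-- Values at `x` of the polynomials of total degree at most `d`. -/
noncomputable def Fil (K : Type*) [Field K] {A : Type*} [CommRing A] [Algebra K A] {N : ℕ}
    (x : Fin N → A) (d : ℕ) : Submodule K A :=
  (MvPolynomial.restrictTotalDegree (Fin N) K d).map (MvPolynomial.aeval x).toLinearMap

/-- Apply a word in two operators, first letter first. -/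
def word {T : Type*} (D : Fin 2 → T → T) : List (Fin 2) → T → T
  | [], g => g
  | b :: l, g => word D l (D b g)

/-- All words of length `< M` applied to `g` are killed by `ev`. -/
def Van {T Ω : Type*} [Zero Ω] (D : Fin 2 → T → T) (ev : T → Ω) (M : ℕ) (g : T) : Prop :=
  ∀ l : List (Fin 2), l.length < M → ev (word D l g) = 0

/-- Integrality over `K[u, v]` with degree at most `d`. -/
def Ctl (K : Type*) [Field K] {E : Type*} [CommRing E] [Algebra K E] (u v : E) (d : ℕ) (g : E) :
    Prop :=
  ∀ c : E, IsIntegral (Algebra.adjoin K ({c, c * u, c * v} : Set E)) (c ^ d * g)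

/-- Triangular numbers. -/
def tri (j : ℕ) : ℕ := j * (j + 1) / 2

end Pool.Agent.H643Z.Gen
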