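import Mathlib
import Pool.Agent.H643Z.Gen.Defs

set_option autoImplicit false

namespace Pool.Agent.H643Z.Gen

open Polynomial Filter Topology

namespace CountAux

section VanLemmas

variable {K A : Type*} [Field K] [CommRing A] [Algebra K A]
  {D : Fin 2 → Derivation K A A} {ev : A →ₐ[K] K}

theorem van_zero (g : A) : Van (fun b => D b) ev 0 g := fun _ h => absurd h (Nat.not_lt_zero _)

theorem van_succ {M : ℕ} {g : A} :
    Van (fun b => D b) ev (M + 1) g ↔ ev g = 0 ∧ ∀ b, Van (fun b => D b) ev M (D b g) := by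
  constructor
  · intro h
    exact ⟨h [] (Nat.succ_pos _), fun b l hl => h (b :: l) (Nat.succ_lt_succ hl)⟩
  · rintro ⟨h0, h1⟩ l hl
    cases l with
    | nil => exact h0
    | cons b l => exact h1 b l (Nat.lt_of_succ_lt_succ hl)

theorem van_mono {M M' : ℕ} {g : A} (hM : M ≤ M') (h : Van (fun b => D b) ev M' g) :
    Van (fun b => D b) ev M g := fun l hl => h l (lt_of_lt_of_le hl hM)

theorem van_add {M : ℕ} {g g' : A} (h : Van (fun b => D b) ev M g)
    (h' : Van (fun b => D b) ev M g') : Van (fun b => D b) ev M (g + g') := by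
  induction M generalizing g g' with
  | zero => exact van_zero _
  | succ M ih =>
    rw [van_succ] at h h' ⊢
    refine ⟨by rw [map_add, h.1, h'.1, add_zero], fun b => ?_⟩
    rw [map_add]
    exact ih (h.2 b) (h'.2 b)

theorem van_of_zero (M : ℕ) : Van (fun b => D b) ev M (0 : A) := by
  induction M with
  | zero => exact van_zero _
  | succ M ih =>
    rw [van_succ]
    exact ⟨map_zero _, fun b => by rw [map_zero]; exact ih⟩

theorem van_mul_left {M : ℕ} (a : A) {g : A} (h : Van (fun b => D b) ev M g) :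
    Van (fun b => D b) ev M (a * g) := by
  induction M generalizing a g with
  | zero => exact van_zero _
  | succ M ih =>
    have h' := van_mono (Nat.le_succ M) h
    rw [van_succ] at h ⊢
    refine ⟨by rw [map_mul, h.1, mul_zero], fun b => ?_⟩
    rw [Derivation.leibniz, smul_eq_mul, smul_eq_mul, mul_comm g]
    exact van_add (ih _ (h.2 b)) (ih _ h')

theorem van_sub {M : ℕ} {g g' : A} (h : Van (fun b => D b) ev M g)
    (h' : Van (fun b => D b) ev M g') : Van (fun b => D b) ev M (g - g') := by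
  have := van_add h (van_mul_left (-1) h')
  rwa [neg_one_mul, ← sub_eq_add_neg] at this

theorem van_mul (m : ℕ) : ∀ {j j' : ℕ} {g g' : A}, j + j' = m → Van (fun b => D b) ev j g →
    Van (fun b => D b) ev j' g' → Van (fun b => D b) ev m (g * g') := by
  induction m with
  | zero => intro _ _ _ _ _ _ _; exact van_zero _
  | succ m ih =>
    intro j j' g g' hm h h'
    rcases j with _ | j
    · rw [zero_add] at hm
      exact hm ▸ van_mul_left g h'
    rcases j' with _ | j'
    · rw [add_zero] at hm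
      rw [mul_comm]
      exact hm ▸ van_mul_left g' h
    rw [van_succ]
    refine ⟨by rw [map_mul, (van_succ.1 h).1, zero_mul], fun b => ?_⟩
    rw [Derivation.leibniz, smul_eq_mul, smul_eq_mul]
    exact van_add (ih (by omega) h ((van_succ.1 h').2 b))
      (ih (j := j' + 1) (j' := j) (by omega) h' ((van_succ.1 h).2 b))

theorem van_of_mem_pow (w : ℕ) {g : A} (hg : g ∈ RingHom.ker ev ^ w) :
    Van (fun b => D b) ev w g := by
  induction w generalizing g with
  | zero => exact van_zero _
  | succ w ih =>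
    rw [pow_succ] at hg
    refine Submodule.mul_induction_on hg (fun a ha c hc => ?_) fun a c ha hc => van_add ha hc
    exact van_mul (w + 1) rfl (ih ha) (van_succ.2 ⟨hc, fun _ => van_zero _⟩)

theorem van_cancel {h : A} (hh : ev h ≠ 0) {M : ℕ} {g : A}
    (H : Van (fun b => D b) ev M (h * g)) : Van (fun b => D b) ev M g := by
  induction M generalizing g with
  | zero => exact van_zero _
  | succ M ih =>
    have hg := ih (van_mono (Nat.le_succ M) H)
    rw [van_succ] at H ⊢
    refine ⟨?_, fun b => ih ?_⟩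
    · have := H.1
      rw [map_mul] at this
      exact (mul_eq_zero.1 this).resolve_left hh
    · have := van_sub (H.2 b) (van_mul_left (D b h) hg)
      rwa [Derivation.leibniz, smul_eq_mul, smul_eq_mul, mul_comm g, add_sub_cancel_right] at this

theorem van_iter (b : Fin 2) (i : ℕ) {k : ℕ} {g : A} (h : Van (fun b => D b) ev (k + i) g) :
    Van (fun b => D b) ev k ((D b)^[i] g) := by
  induction i generalizing g with
  | zero => exact h
  | succ i ih => exact ih ((van_succ.1 h).2 b)

theorem iter_add (E : Derivation K A A) (i : ℕ) (g g' : A) :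
    E^[i] (g + g') = E^[i] g + E^[i] g' := by
  induction i generalizing g g' with
  | zero => rfl
  | succ i ih => simp only [Function.iterate_succ_apply, map_add, ih]

theorem iter_smul (E : Derivation K A A) (i : ℕ) (c : K) (g : A) :
    E^[i] (c • g) = c • E^[i] g := by
  induction i generalizing g with
  | zero => rfl
  | succ i ih => simp only [Function.iterate_succ_apply, Derivation.map_smul, ih]

theorem van_comm {α β : A} (hcomm : ∀ g, D 0 (D 1 g) - D 1 (D 0 g) = α * D 1 g - β * D 0 g)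
    (i : ℕ) {k : ℕ} {g : A} (h : Van (fun b => D b) ev (k + i) g) :
    Van (fun b => D b) ev k ((D 1)^[i] (D 0 g) - D 0 ((D 1)^[i] g)) := by
  induction i generalizing k with
  | zero => simpa using van_of_zero k
  | succ i ih =>
    have h' : Van (fun b => D b) ev (k + 1 + i) g := by rwa [add_right_comm]
    have h1 := (van_succ.1 (ih h')).2 1
    have h2 := (van_succ.1 (van_iter 1 i h')).2
    have h3 := van_sub h1 (van_sub (van_mul_left α (h2 1)) (van_mul_left β (h2 0)))
    rw [← hcomm, map_sub, sub_sub, add_sub_cancel] at h3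
    rwa [Function.iterate_succ_apply', Function.iterate_succ_apply']

theorem van_step {α β : A} (hcomm : ∀ g, D 0 (D 1 g) - D 1 (D 0 g) = α * D 1 g - β * D 0 g)
    (j : ℕ) {g : A} (h : Van (fun b => D b) ev j g)
    (hc : ∀ a c, a + c = j → ev ((D 0)^[a] ((D 1)^[c] g)) = 0) :
    Van (fun b => D b) ev (j + 1) g := by
  induction j generalizing g with
  | zero => exact van_succ.2 ⟨hc 0 0 rfl, fun _ => van_zero _⟩
  | succ j ih =>
    refine van_succ.2 ⟨(van_succ.1 h).1, fun b => ih ((van_succ.1 h).2 b) fun a c hac => ?_⟩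
    fin_cases b
    · have h1 : Van (fun b => D b) ev (1 + a + c) g := by rwa [show 1 + a + c = j + 1 by omega]
      have h2 := (van_succ.1 (van_iter 0 a (k := 1) (van_comm hcomm c h1))).1
      have h3 := hc (a + 1) c (by omega)
      rw [Function.iterate_succ_apply] at h3
      have h4 := iter_add (D 0) a ((D 1)^[c] (D 0 g) - D 0 ((D 1)^[c] g)) (D 0 ((D 1)^[c] g))
      rw [sub_add_cancel] at h4
      show ev ((D 0)^[a] ((D 1)^[c] (D 0 g))) = 0
      rw [h4, map_add, h2, h3, add_zero]
    · exact hc a (c + 1) (by omega)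

/-- the linear conditions given by ordered words -/
noncomputable def cond (D : Fin 2 → Derivation K A A) (ev : A →ₐ[K] K) (j : ℕ) :
    A →ₗ[K] ((Σ i : Fin j, Fin (i + 1)) → K) where
  toFun g := fun p => ev ((D 0)^[p.2] ((D 1)^[p.1 - p.2] g))
  map_add' g g' := by funext p; simp only [iter_add, map_add, Pi.add_apply]
  map_smul' c g := by funext p; simp only [iter_smul, map_smul, Pi.smul_apply, RingHom.id_apply]

theorem van_of_cond {α β : A} (hcomm : ∀ g, D 0 (D 1 g) - D 1 (D 0 g) = α * D 1 g - β * D 0 g)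
    (j : ℕ) {g : A} (h : cond D ev j g = 0) : Van (fun b => D b) ev j g := by
  have key : ∀ i, i ≤ j → Van (fun b => D b) ev i g := by
    intro i
    induction i with
    | zero => exact fun _ => van_zero _
    | succ i ih =>
      intro hi
      refine van_step hcomm i (ih (by omega)) fun a c hac => ?_
      have := congrFun h ⟨⟨i, hi⟩, ⟨a, by simp only; omega⟩⟩
      rw [show c = i - a by omega]
      exact this
  exact key j le_rfl

theorem card_idx (j : ℕ) : Fintype.card (Σ i : Fin j, Fin (i + 1)) = tri j := by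
  simp only [Fintype.card_sigma, Fintype.card_fin]
  rw [Fin.sum_univ_eq_sum_range (fun i => i + 1) j]
  have : 2 * ∑ i ∈ Finset.range j, (i + 1) = j * (j + 1) := by
    induction j with
    | zero => simp
    | succ j ih => rw [Finset.sum_range_succ, mul_add, ih]; ring
  unfold tri
  omega

theorem iter_mul_mem (E : Derivation K A A) (J : Ideal A) (j : ℕ) (a : A) {g : A}
    (h : ∀ t, t ≤ j → E^[t] g ∈ J) : E^[j] (a * g) ∈ J := by
  induction j generalizing a g with
  | zero => exact J.mul_mem_left a (h 0 le_rfl)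
  | succ j ih =>
    rw [Function.iterate_succ_apply, Derivation.leibniz, smul_eq_mul, smul_eq_mul, iter_add,
      mul_comm g]
    exact J.add_mem (ih a fun t ht => h (t + 1) (by omega)) (ih _ fun t ht => h t (by omega))

theorem iter_pow (E : Derivation K A A) (φ q : A) (i m : ℕ) :
    ∃ c : ℕ, c ≠ 0 ∧ ∃ r, E^[i] (φ ^ (i + m) * q) = c * φ ^ m * (E φ ^ i * q) + φ ^ (m + 1) * r := by
  induction i generalizing m with
  | zero => exact ⟨1, one_ne_zero, 0, by simp⟩
  | succ i ih =>
    obtain ⟨c, hc, r, hr⟩ := ih (m + 1)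
    refine ⟨c * (m + 1), by positivity,
      c * E (E φ ^ i * q) + ((m + 2 : ℕ) : A) * E φ * r + φ * E r, ?_⟩
    rw [Function.iterate_succ_apply', show i + 1 + m = i + (m + 1) by ring, hr]
    generalize hu : E φ ^ i * q = u
    have hu' : E φ ^ (i + 1) * q = E φ * u := by rw [← hu]; ring
    rw [hu']
    simp only [map_add, Derivation.leibniz, Derivation.leibniz_pow, Derivation.map_natCast,
      smul_eq_mul, nsmul_eq_mul, Nat.add_sub_cancel]
    push_cast
    ring

theorem pow_dvd [CharZero K] (E : Derivation K A A) (J : Ideal A) [hp : J.IsPrime] {φ h : A}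
    (hφ : φ ∈ J) (hE : E φ ∉ J) (hd : ∀ g ∈ J, φ ∣ h * g) (j : ℕ) {g : A}
    (hg : ∀ t, t < j → E^[t] g ∈ J) : φ ^ j ∣ h ^ j * g := by
  induction j with
  | zero => simp
  | succ j ih =>
    obtain ⟨q, hq⟩ := ih fun t ht => hg t (by omega)
    have h1 := iter_mul_mem E J j (h ^ j) fun t ht => hg t (by omega)
    obtain ⟨c, hc, r, hr⟩ := iter_pow E φ q j 0
    rw [add_zero] at hr
    rw [hq, hr, pow_zero, mul_one, zero_add, pow_one] at h1
    have h2 : (c : A) * (E φ ^ j * q) ∈ J := (J.add_mem_iff_left (J.mul_mem_right r hφ)).1 h1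
    have hu : IsUnit (c : A) := by
      have := (IsUnit.mk0 (c : K) (Nat.cast_ne_zero.2 hc)).map (algebraMap K A)
      rwa [map_natCast] at this
    have h3 := (J.unit_mul_mem_iff_mem hu).1 h2
    have h4 : q ∈ J := (hp.mem_or_mem h3).resolve_left fun h5 => hE (hp.mem_of_pow_mem _ h5)
    obtain ⟨q', hq'⟩ := hd q h4
    exact ⟨q', by rw [pow_succ', mul_assoc, hq, mul_left_comm, hq']; ring⟩

theorem exists_psi [CharZero K] [IsDomain A] (J : Ideal A) [hp : J.IsPrime] (b : Fin 2)
    (hJ : ∃ g ∈ J, D b g ∉ J) (w : ℕ)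
    (hw : ∃ φ h : A, ev h ≠ 0 ∧ (∀ g ∈ J, φ ∣ h * g) ∧ h * φ ∈ J ∧ φ ∈ RingHom.ker ev ^ w)
    (s M : ℕ) : ∃ ψ : A →ₗ[K] A, ∀ g, (∀ t, t < s → (D b)^[t] g ∈ J) →
      Van (fun b => D b) ev (M - s * w) (ψ g) → Van (fun b => D b) ev M g := by
  rcases Nat.eq_zero_or_pos w with rfl | hw0
  · exact ⟨LinearMap.id, fun g _ h => h⟩
  obtain ⟨φ, h, h1, h2, h3, h4⟩ := hw
  have hφ0 : ev φ = 0 := Ideal.pow_le_self hw0.ne' h4
  have hh : h ∉ J := fun hh => by
    obtain ⟨q, hq⟩ := h2 h hh
    have := congrArg ev hq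
    rw [map_mul, map_mul, hφ0, zero_mul] at this
    exact h1 (mul_self_eq_zero.1 this)
  have hφ : φ ∈ J := (hp.mem_or_mem h3).resolve_left hh
  have hE : D b φ ∉ J := fun hE => by
    obtain ⟨g, hg, hg'⟩ := hJ
    obtain ⟨q, hq⟩ := h2 g hg
    have := congrArg (D b) hq
    rw [Derivation.leibniz, Derivation.leibniz, smul_eq_mul, smul_eq_mul, smul_eq_mul,
      smul_eq_mul] at this
    have h5 : h * D b g + g * D b h ∈ J :=
      this ▸ J.add_mem (J.mul_mem_right _ hφ) (J.mul_mem_left _ hE)
    exact hg' ((hp.mem_or_mem ((J.add_mem_iff_left (J.mul_mem_right _ hg)).1 h5)).resolve_left hh)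
  have hφne : φ ≠ 0 := fun h0 => hE (by rw [h0, map_zero]; exact J.zero_mem)
  obtain ⟨ρ, hρ⟩ := (LinearMap.mulLeft K (φ ^ s)).exists_leftInverse_of_injective
    (LinearMap.ker_eq_bot.2 (mul_right_injective₀ (pow_ne_zero s hφne)))
  refine ⟨ρ ∘ₗ LinearMap.mulLeft K (h ^ s), fun g hg hv => ?_⟩
  obtain ⟨q, hq⟩ := pow_dvd (D b) J hφ hE h2 s hg
  have hρq : ρ (φ ^ s * q) = q := LinearMap.congr_fun hρ q
  rw [LinearMap.comp_apply, LinearMap.mulLeft_apply, hq, hρq] at hv
  have h6 : φ ^ s ∈ RingHom.ker ev ^ (w * s) := by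
    rw [pow_mul]; exact Ideal.pow_mem_pow h4 s
  have h7 := van_mul _ rfl (van_of_mem_pow (D := D) _ h6) hv
  rw [← hq] at h7
  refine van_cancel (h := h ^ s) (by rw [map_pow]; exact pow_ne_zero s h1) (van_mono ?_ h7)
  rw [mul_comm s w]
  omega

end VanLemmas

theorem fil_mono {K A : Type*} [Field K] [CommRing A] [Algebra K A] {N : ℕ} (x : Fin N → A)
    {d d' : ℕ} (h : d ≤ d') : Fil K x d ≤ Fil K x d' := by
  rintro _ ⟨p, hp, rfl⟩
  exact ⟨p, (MvPolynomial.mem_restrictTotalDegree _ _ _).2
    (((MvPolynomial.mem_restrictTotalDegree _ _ _).1 hp).trans h), rfl⟩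

theorem fil_map {K A : Type*} [Field K] [CommRing A] [Algebra K A] {N : ℕ} (x : Fin N → A)
    (J : Ideal A) {d : ℕ} {g : A} (hg : g ∈ Fil K x d) :
    Ideal.Quotient.mk J g ∈ Fil K (fun i => Ideal.Quotient.mk J (x i)) d := by
  obtain ⟨p, hp, rfl⟩ := hg
  refine ⟨p, hp, ?_⟩
  exact (DFunLike.congr_fun (MvPolynomial.comp_aeval x (Ideal.Quotient.mkₐ K J)) p).symm

instance fil_finite {K A : Type*} [Field K] [CommRing A] [Algebra K A] {N : ℕ} (x : Fin N → A)
    (d : ℕ) : Module.Finite K (Fil K x d) := by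
  unfold Fil
  infer_instance

end CountAux

open CountAux in
theorem count_ineq {K A : Type*} [Field K] [CharZero K] [CommRing A] [IsDomain A] [Algebra K A]
    {N : ℕ} (x : Fin N → A) (D : Fin 2 → Derivation K A A) (α β : A)
    (hcomm : ∀ g, D 0 (D 1 g) - D 1 (D 0 g) = α * D 1 g - β * D 0 g)
    (κ : ℕ) (hκ : ∀ b d, ∀ g ∈ Fil K x d, D b g ∈ Fil K x (d + κ))
    (J : Ideal A) [J.IsPrime] (hJ : ∃ b, ∃ g ∈ J, D b g ∉ J)
    {n : ℕ} (P : Fin n → (A →ₐ[K] K)) (w : Fin n → ℕ)
    (hw : ∀ i, ∃ φ h : A, P i h ≠ 0 ∧ (∀ g ∈ J, φ ∣ h * g) ∧ h * φ ∈ J ∧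
      φ ∈ RingHom.ker (P i) ^ w i)
    (d s M : ℕ)
    (hemp : ∀ g ∈ Fil K x d, (∀ i, Van (fun b => D b) (P i) M g) → g = 0) :
    Module.finrank K (Fil K x d) ≤
      s * Module.finrank K (Fil K (fun i => Ideal.Quotient.mk J (x i)) (d + s * κ)) +
        ∑ i, tri (M - s * w i) := by
  obtain ⟨b, hb⟩ := hJ
  choose ψ hψ using fun i => exists_psi (D := D) (ev := P i) J b hb (w i) (hw i) s M
  have hit : ∀ t, ∀ g ∈ Fil K x d, (D b)^[t] g ∈ Fil K x (d + t * κ) := by
    intro t g hg
    induction t with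
    | zero => simpa using hg
    | succ t ih =>
      rw [Function.iterate_succ_apply', add_mul, one_mul, ← add_assoc]
      exact hκ b _ _ ih
  let L : Fil K x d →ₗ[K] (Fin s → Fil K (fun i => Ideal.Quotient.mk J (x i)) (d + s * κ)) :=
    { toFun := fun g t => ⟨Ideal.Quotient.mk J ((D b)^[t] g), fil_map x J (fil_mono x
        (Nat.add_le_add_left (Nat.mul_le_mul_right κ t.2.le) d) (hit t g g.2))⟩
      map_add' := fun g g' => by
        funext t
        apply Subtype.ext
        simp only [Submodule.coe_add, iter_add, map_add, Pi.add_apply]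
      map_smul' := fun c g => by
        funext t
        apply Subtype.ext
        simp only [Submodule.coe_smul, iter_smul, Pi.smul_apply, RingHom.id_apply]
        exact map_smul (Ideal.Quotient.mkₐ K J) c _ }
  let C : Fil K x d →ₗ[K] (∀ i, (Σ j : Fin (M - s * w i), Fin (j + 1)) → K) :=
    LinearMap.pi fun i => (cond D (P i) (M - s * w i) ∘ₗ ψ i) ∘ₗ (Fil K x d).subtype
  have hinj : Function.Injective (L.prod C) := by
    rw [← LinearMap.ker_eq_bot, LinearMap.ker_eq_bot']
    intro g hg
    have h1 : L g = 0 := congrArg Prod.fst hg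
    have h2 : C g = 0 := congrArg Prod.snd hg
    refine Subtype.ext (hemp g g.2 fun i => hψ i g (fun t ht => ?_)
      (van_of_cond hcomm _ (congrFun h2 i)))
    exact Ideal.Quotient.eq_zero_iff_mem.1 (congrArg Subtype.val (congrFun h1 ⟨t, ht⟩))
  have := LinearMap.finrank_le_finrank_of_injective hinj
  rw [Module.finrank_prod, Module.finrank_pi_fintype, Module.finrank_pi_fintype] at this
  simpa only [Finset.sum_const, Finset.card_univ, Fintype.card_fin, smul_eq_mul,
    Module.finrank_fintype_fun_eq_card, card_idx] using this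

end Pool.Agent.H643Z.Gen
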