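import Mathlib
import Pool.Agent.H643Z.Gen.Defs

set_option autoImplicit false

namespace Pool.Agent.H643Z.Gen

open Polynomial Filter Topology

namespace DerivAux

/-- A derivation of the base extends to a formally etale algebra. -/
theorem exists_ext {K B E : Type*} [CommRing K] [CommRing B] [CommRing E] [Algebra K B]
    [Algebra K E] [Algebra B E] [IsScalarTower K B E] [Algebra.FormallyEtale B E]
    (d : Derivation K B B) :
    ∃ D : Derivation K E E, ∀ b, D (algebraMap B E b) = algebraMap B E (d b) := by
  let d' : Derivation K B E := (Algebra.linearMap B E).compDer d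
  refine ⟨((d'.liftKaehlerDifferential.liftBaseChange E) ∘ₗ
    (KaehlerDifferential.tensorKaehlerEquivOfFormallyEtale K B E).symm.toLinearMap).compDer
      (KaehlerDifferential.D K E), fun b => ?_⟩
  change d'.liftKaehlerDifferential.liftBaseChange E
    ((KaehlerDifferential.tensorKaehlerEquivOfFormallyEtale K B E).symm
      (KaehlerDifferential.D K E (algebraMap B E b))) = _
  rw [KaehlerDifferential.tensorKaehlerEquivOfFormallyEtale_symm_D_algebraMap,
    LinearMap.liftBaseChange_tmul, one_smul, Derivation.liftKaehlerDifferential_comp_D]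
  rfl

theorem formallyEtale {B A : Type*} [CommRing B] [IsDomain B] [CharZero B] [CommRing A]
    [IsDomain A] [Algebra B A] [Algebra.IsIntegral B A]
    (hinj : Function.Injective (algebraMap B A)) : Algebra.FormallyEtale B (FractionRing A) := by
  have : FaithfulSMul B A := (faithfulSMul_iff_algebraMap_injective B A).2 hinj
  let : Algebra (FractionRing B) (FractionRing A) := FractionRing.liftAlgebra B (FractionRing A)
  have : Algebra.IsAlgebraic B (FractionRing A) :=
    (IsFractionRing.isAlgebraic_iff' B A (FractionRing A)).1 inferInstance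
  have : Algebra.IsAlgebraic (FractionRing B) (FractionRing A) :=
    ⟨fun _ => (IsFractionRing.isAlgebraic_iff B (FractionRing B) (FractionRing A)).1
      (Algebra.IsAlgebraic.isAlgebraic _)⟩
  have : Algebra.FormallyEtale B (FractionRing B) :=
    Algebra.FormallyEtale.of_isLocalization (nonZeroDivisors B)
  have : Algebra.FormallyEtale (FractionRing B) (FractionRing A) :=
    Algebra.FormallyEtale.of_isSeparable _ _
  exact Algebra.FormallyEtale.comp B (FractionRing B) (FractionRing A)

theorem exists_clear {B A : Type*} [CommRing B] [IsDomain B] [CommRing A]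
    [IsDomain A] [Algebra B A] [Algebra.IsIntegral B A] (s : Finset (FractionRing A)) :
    ∃ Δ : B, Δ ≠ 0 ∧ ∀ e ∈ s, ∃ a : A,
      algebraMap A (FractionRing A) a = algebraMap B (FractionRing A) Δ * e := by
  classical
  induction s using Finset.induction_on with
  | empty => exact ⟨1, one_ne_zero, by simp⟩
  | insert e s _ ih =>
    obtain ⟨Δ, h0, h⟩ := ih
    obtain ⟨x, y, hy, rfl⟩ := IsFractionRing.div_surjective (A := A) e
    obtain ⟨r, hr, t, ht⟩ :=
      (Algebra.IsIntegral.isIntegral (R := B) y).isAlgebraic.exists_nonzero_dvd hy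
    have hy' : algebraMap A (FractionRing A) y ≠ 0 :=
      IsFractionRing.to_map_ne_zero_of_mem_nonZeroDivisors hy
    refine ⟨Δ * r, mul_ne_zero h0 hr, fun e he => ?_⟩
    rcases Finset.mem_insert.1 he with rfl | he
    · refine ⟨algebraMap B A Δ * t * x, ?_⟩
      rw [map_mul (algebraMap B _), IsScalarTower.algebraMap_apply B A (FractionRing A) r, ht,
        IsScalarTower.algebraMap_apply B A (FractionRing A) Δ]
      simp only [map_mul]
      field_simp
    · obtain ⟨a, ha⟩ := h e he
      refine ⟨algebraMap B A r * a, ?_⟩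
      rw [map_mul, ha, ← IsScalarTower.algebraMap_apply, map_mul]
      ring

end DerivAux

theorem deriv_eq_zero {K A M : Type*} [Field K] [CharZero K] [CommRing A] [IsDomain A]
    [Algebra (BB K) A] [Algebra.IsIntegral (BB K) A]
    (hinj : Function.Injective (algebraMap (BB K) A)) [CommRing M] [IsDomain M] (ι : A →+* M)
    (hι : Function.Injective ι) (δ : A →+ M) (hmul : ∀ a b, δ (a * b) = ι a * δ b + ι b * δ a)
    (hC : ∀ c : K, δ (algebraMap (BB K) A (MvPolynomial.C c)) = 0)
    (hX : ∀ j, δ (algebraMap (BB K) A (MvPolynomial.X j)) = 0) (a : A) : δ a = 0 := by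
  classical
  have hB : ∀ b : BB K, δ (algebraMap (BB K) A b) = 0 := by
    intro b
    induction b using MvPolynomial.induction_on with
    | C c => exact hC c
    | add p q hp hq => rw [map_add, map_add, hp, hq, add_zero]
    | mul_X p j hp => rw [map_mul, hmul, hp, hX, mul_zero, mul_zero, add_zero]
  have hP : ∀ P : (BB K)[X], δ (aeval a P) = ι (aeval a (derivative P)) * δ a := by
    intro P
    induction P using Polynomial.induction_on with
    | C c => simp [hB]
    | add p q hp hq => simp only [map_add, hp, hq, add_mul]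
    | monomial n c h =>
      rw [pow_succ, ← mul_assoc]
      generalize C c * X ^ n = Q at h ⊢
      rw [map_mul, hmul, h, derivative_mul]
      simp only [aeval_X, derivative_X, mul_one, map_add, map_mul]
      ring
  have hex : ∃ n, ∃ P : (BB K)[X], P ≠ 0 ∧ aeval a P = 0 ∧ P.natDegree = n := by
    obtain ⟨P, h1, h2⟩ := Algebra.IsIntegral.isIntegral (R := BB K) a
    exact ⟨_, P, h1.ne_zero, h2, rfl⟩
  obtain ⟨P, h0, h1, h2⟩ := Nat.find_spec hex
  have h3 : P.natDegree ≠ 0 := by
    intro h3
    rw [eq_C_of_natDegree_eq_zero h3, aeval_C] at h1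
    rw [eq_C_of_natDegree_eq_zero h3, hinj (h1.trans (map_zero _).symm), map_zero] at h0
    exact h0 rfl
  have h4 : aeval a (derivative P) ≠ 0 := fun h4 =>
    Nat.find_min hex (h2 ▸ natDegree_derivative_lt h3)
      ⟨derivative P, fun h5 => h3 (Polynomial.derivative_eq_zero.1 h5), h4, rfl⟩
  have h5 := hP P
  rw [h1, map_zero, eq_comm, mul_eq_zero] at h5
  exact h5.resolve_left fun h6 => h4 (hι (h6.trans (map_zero ι).symm))

theorem exists_derivs {K A : Type*} [Field K] [CharZero K] [CommRing A] [IsDomain A] [Algebra K A]
    [Algebra (BB K) A] [IsScalarTower K (BB K) A] [Module.Finite (BB K) A]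
    (hinj : Function.Injective (algebraMap (BB K) A)) :
    ∃ Δ : BB K, Δ ≠ 0 ∧ ∃ D : Fin 2 → Derivation K A A,
      (∀ i j, D i (algebraMap (BB K) A (MvPolynomial.X j)) =
        if i = j then algebraMap (BB K) A Δ else 0) ∧
      ∃ α β : A, ∀ g, D 0 (D 1 g) - D 1 (D 0 g) = α * D 1 g - β * D 0 g := by
  classical
  have := DerivAux.formallyEtale hinj
  set E := FractionRing A
  have hE : Function.Injective (algebraMap A E) := IsFractionRing.injective A E
  choose d hd using fun i : Fin 2 =>
    DerivAux.exists_ext (E := E) (MvPolynomial.pderiv i : Derivation K (BB K) (BB K))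
  obtain ⟨s, hs⟩ := Module.Finite.fg_top (R := BB K) (M := A)
  obtain ⟨Δ, h0, hΔ⟩ := DerivAux.exists_clear (B := BB K)
    ((Finset.univ ×ˢ s).image fun q : Fin 2 × A => d q.1 (algebraMap A E q.2))
  have h1 : ∀ i (a : A), ∃ c : A,
      algebraMap A E c = algebraMap (BB K) E Δ * d i (algebraMap A E a) := by
    intro i a
    have ha : a ∈ Submodule.span (BB K) (s : Set A) := hs ▸ Submodule.mem_top
    induction ha using Submodule.span_induction with
    | mem x hx => exact hΔ _ (Finset.mem_image.2 ⟨(i, x), by simpa using hx, rfl⟩)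
    | zero => exact ⟨0, by simp⟩
    | add x y _ _ hx hy =>
      obtain ⟨c, hc⟩ := hx
      obtain ⟨c', hc'⟩ := hy
      exact ⟨c + c', by rw [map_add, hc, hc', map_add, map_add, mul_add]⟩
    | smul b x _ hx =>
      obtain ⟨c, hc⟩ := hx
      refine ⟨algebraMap (BB K) A b * c +
        x * algebraMap (BB K) A (Δ * MvPolynomial.pderiv i b), ?_⟩
      rw [Algebra.smul_def, map_mul (algebraMap A E) (algebraMap (BB K) A b) x,
        ← IsScalarTower.algebraMap_apply, Derivation.leibniz, hd, map_add, map_mul, map_mul, hc,
        ← IsScalarTower.algebraMap_apply, ← IsScalarTower.algebraMap_apply, map_mul]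
      simp only [smul_eq_mul]
      ring
  choose f hf using h1
  let D : Fin 2 → Derivation K A A := fun i => Derivation.mk'
    { toFun := f i
      map_add' := fun x y => hE (by rw [map_add, hf, hf, hf, map_add, map_add, mul_add])
      map_smul' := fun c x => hE (by
        rw [hf, RingHom.id_apply, Algebra.smul_def, Algebra.smul_def, map_mul (algebraMap A E),
          map_mul (algebraMap A E), hf, ← IsScalarTower.algebraMap_apply,
          ← Algebra.smul_def c (algebraMap A E x), Derivation.map_smul, Algebra.smul_def]
        ring) }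
    (fun x y => hE (by
      change algebraMap A E (f i (x * y)) = algebraMap A E (x * f i y + y * f i x)
      rw [hf, map_add, map_mul (algebraMap A E), map_mul (algebraMap A E),
        map_mul (algebraMap A E), hf, hf, Derivation.leibniz]
      simp only [smul_eq_mul]
      ring))
  have hD : ∀ i b, D i (algebraMap (BB K) A b) =
      algebraMap (BB K) A Δ * algebraMap (BB K) A (MvPolynomial.pderiv i b) := fun i b => hE (by
    change algebraMap A E (f i _) = _
    rw [hf, ← IsScalarTower.algebraMap_apply, hd, map_mul, ← IsScalarTower.algebraMap_apply,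
      ← IsScalarTower.algebraMap_apply])
  have hX : ∀ i j, D i (algebraMap (BB K) A (MvPolynomial.X j)) =
      if i = j then algebraMap (BB K) A Δ else 0 := by
    intro i j
    rw [hD, MvPolynomial.pderiv_X]
    by_cases h : i = j
    · simp [h]
    · simp [h]
  refine ⟨Δ, h0, D, hX, algebraMap (BB K) A (MvPolynomial.pderiv 0 Δ),
    algebraMap (BB K) A (MvPolynomial.pderiv 1 Δ), fun g => sub_eq_zero.1 ?_⟩
  refine deriv_eq_zero hinj (RingHom.id A) Function.injective_id
    (AddMonoidHom.mk' (fun g => D 0 (D 1 g) - D 1 (D 0 g) -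
      (algebraMap (BB K) A (MvPolynomial.pderiv 0 Δ) * D 1 g -
        algebraMap (BB K) A (MvPolynomial.pderiv 1 Δ) * D 0 g))
      (fun x y => by simp only [map_add]; ring)) (fun x y => ?_) (fun c => ?_) (fun j => ?_) g
  · simp only [AddMonoidHom.mk'_apply, Derivation.leibniz, map_add, smul_eq_mul, RingHom.id_apply]
    ring
  · simp [hD]
  · simp only [AddMonoidHom.mk'_apply, hX]
    fin_cases j <;> simp [hD, mul_comm]

end Pool.Agent.H643Z.Gen
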