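import Mathlib
import Pool.Agent.H643Z.Gen.Defs

set_option autoImplicit false

namespace Pool.Agent.H643Z.Gen

open Polynomial Filter Topology

namespace HenselAux

theorem exists_gen {B F E : Type*} [CommRing B] [IsDomain B] [Field F] [Field E]
    [Algebra B F] [IsFractionRing B F] [Algebra F E] [Algebra B E] [IsScalarTower B F E]
    [FiniteDimensional F E] [Algebra.IsSeparable F E] :
    ∃ pb : PowerBasis F E, IsIntegral B pb.gen := by
  obtain ⟨α, hα⟩ := Field.exists_primitive_element F E
  have halgF : IsAlgebraic F α := IsAlgebraic.of_finite F α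
  have halg : IsAlgebraic B α := (IsFractionRing.isAlgebraic_iff B F E).2 halgF
  obtain ⟨y, hy, hint⟩ := halg.exists_integral_multiple
  have hy' : algebraMap B F y ≠ 0 := by
    intro h
    exact hy (IsFractionRing.injective B F (by simpa using h))
  have htop : Algebra.adjoin F ({α} : Set E) = ⊤ := by
    rw [← IntermediateField.adjoin_simple_toSubalgebra_of_isAlgebraic halgF, hα]
    rfl
  have htop2 : Algebra.adjoin F ({y • α} : Set E) = ⊤ := by
    rw [eq_top_iff, ← htop, Algebra.adjoin_le_iff]
    rintro x rfl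
    have h1 : y • x ∈ Algebra.adjoin F ({y • x} : Set E) := Algebra.subset_adjoin rfl
    have h2 := Subalgebra.smul_mem _ h1 (algebraMap B F y)⁻¹
    have h3 : (algebraMap B F y)⁻¹ • (y • x) = x := by
      rw [← algebraMap_smul F y x, smul_smul, inv_mul_cancel₀ hy', one_smul]
    rw [h3] at h2
    exact h2
  have hiF : IsIntegral F (y • α) := Algebra.IsIntegral.isIntegral _
  refine ⟨PowerBasis.ofAdjoinEqTop hiF htop2, ?_⟩
  rw [PowerBasis.ofAdjoinEqTop_gen]
  exact hint

theorem exists_den {B F E : Type*} [CommRing B] [IsDomain B] [IsIntegrallyClosed B]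
    [Field F] [Field E]
    [Algebra B F] [IsFractionRing B F] [Algebra F E] [Algebra B E] [IsScalarTower B F E]
    [FiniteDimensional F E] [Algebra.IsSeparable F E] (pb : PowerBasis F E)
    (hint : IsIntegral B pb.gen) :
    ∃ D : B, D ≠ 0 ∧ ∀ z : E, IsIntegral B z → ∃ q : B[X], D • z = aeval pb.gen q := by
  have h1 : IsIntegral B (Algebra.discr F pb.basis) := by
    apply Algebra.discr_isIntegral
    intro i
    rw [pb.basis_eq_pow]
    exact hint.pow _
  obtain ⟨D, hD⟩ := IsIntegrallyClosed.isIntegral_iff.1 h1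
  refine ⟨D, ?_, ?_⟩
  · rintro rfl
    exact Algebra.discr_not_zero_of_basis F pb.basis (by rw [← hD, map_zero])
  · intro z hz
    have h2 := Algebra.discr_mul_isIntegral_mem_adjoin F hint hz
    rw [← hD, algebraMap_smul, Algebra.adjoin_singleton_eq_range_aeval] at h2
    obtain ⟨q, hq⟩ := h2
    exact ⟨q, hq.symm⟩

theorem exists_bezout {B F : Type*} [CommRing B] [IsDomain B] [Field F]
    [Algebra B F] [IsFractionRing B F] (f : B[X]) (hf : (f.map (algebraMap B F)).Separable) :
    ∃ ρ : B, ρ ≠ 0 ∧ ∃ a b : B[X], a * f + b * derivative f = C ρ := by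
  obtain ⟨a, b, hab⟩ := hf
  obtain ⟨s, hs, hsa⟩ := IsLocalization.integerNormalization_spec (nonZeroDivisors B) a
  obtain ⟨t, ht, htb⟩ := IsLocalization.integerNormalization_spec (nonZeroDivisors B) b
  refine ⟨s * t, mul_ne_zero (nonZeroDivisors.ne_zero hs) (nonZeroDivisors.ne_zero ht),
    C t * IsLocalization.integerNormalization (nonZeroDivisors B) a,
    C s * IsLocalization.integerNormalization (nonZeroDivisors B) b, ?_⟩
  apply Polynomial.map_injective (algebraMap B F) (IsFractionRing.injective B F)
  rw [Polynomial.derivative_map] at hab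
  simp only [Polynomial.map_add, Polynomial.map_mul, Polynomial.map_C, hsa, htb, map_mul]
  rw [← algebraMap_smul F s a, ← algebraMap_smul F t b, Polynomial.smul_eq_C_mul,
    Polynomial.smul_eq_C_mul]
  linear_combination (C (algebraMap B F s) * C (algebraMap B F t)) * hab

theorem exists_iota {B F E S : Type*} [CommRing B] [IsDomain B] [IsIntegrallyClosed B]
    [Field F] [Field E]
    [Algebra B F] [IsFractionRing B F] [Algebra F E] [Algebra B E] [IsScalarTower B F E]
    [CommRing S] [IsDomain S] (pb : PowerBasis F E) (hint : IsIntegral B pb.gen)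
    (D : B) (hD : ∀ z : E, IsIntegral B z → ∃ q : B[X], D • z = aeval pb.gen q)
    (β : B →+* S) (hβ : Function.Injective β) (hu : IsUnit (β D))
    (Θ : S) (hΘ : ((minpoly B pb.gen).map β).IsRoot Θ) :
    ∃ ι : integralClosure B E →+* S, Function.Injective ι ∧
      ∀ b, ι (algebraMap B (integralClosure B E) b) = β b := by
  have hinjS : Function.Injective (algebraMap S (FractionRing S)) := IsFractionRing.injective _ _
  have hg : Function.Injective ((algebraMap S (FractionRing S)).comp β) := hinjS.comp hβ
  let φ : F →+* FractionRing S := IsFractionRing.lift hg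
  have hφ : ∀ b : B, φ (algebraMap B F b) = algebraMap S (FractionRing S) (β b) := fun b =>
    IsFractionRing.lift_algebraMap hg b
  let _ : Algebra F (FractionRing S) := φ.toAlgebra
  have hev : ∀ q : B[X], aeval (algebraMap S (FractionRing S) Θ) (q.map (algebraMap B F)) =
      algebraMap S (FractionRing S) ((q.map β).eval Θ) := by
    intro q
    rw [aeval_def, eval₂_map, eval_map, Polynomial.hom_eval₂]
    congr 1
    ext b
    exact hφ b
  have hroot : aeval (algebraMap S (FractionRing S) Θ) (minpoly F pb.gen) = 0 := by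
    rw [minpoly.isIntegrallyClosed_eq_field_fractions' F hint, hev, hΘ.eq_zero, map_zero]
  let ψ : E →ₐ[F] FractionRing S := pb.lift _ hroot
  have hψb : ∀ b : B, ψ (algebraMap B E b) = algebraMap S (FractionRing S) (β b) := by
    intro b
    rw [IsScalarTower.algebraMap_apply B F E, AlgHom.commutes]
    exact hφ b
  have hrange : ∀ z : integralClosure B E, ψ z ∈ (algebraMap S (FractionRing S)).range := by
    intro z
    obtain ⟨q, hq⟩ := hD z z.2
    obtain ⟨u, hu'⟩ := hu
    have h1 : ψ (D • (z : E)) = algebraMap S (FractionRing S) ((q.map β).eval Θ) := by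
      rw [hq, ← hev, ← aeval_map_algebraMap F pb.gen q]
      exact pb.lift_aeval _ hroot _
    rw [Algebra.smul_def, map_mul, hψb, ← hu'] at h1
    refine ⟨(u⁻¹ : Sˣ) * (q.map β).eval Θ, ?_⟩
    rw [map_mul, ← h1, ← mul_assoc, ← map_mul, Units.inv_mul, map_one, one_mul]
  let χ : integralClosure B E →+* (algebraMap S (FractionRing S)).range :=
    RingHom.codRestrict (ψ.toRingHom.comp (integralClosure B E).val.toRingHom) _ hrange
  let e : S ≃+* (algebraMap S (FractionRing S)).range :=
    RingEquiv.ofBijective (algebraMap S (FractionRing S)).rangeRestrict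
      ⟨fun a b h => hinjS (congrArg Subtype.val h), RingHom.rangeRestrict_surjective _⟩
  refine ⟨e.symm.toRingHom.comp χ, ?_, ?_⟩
  · intro a b h
    have h1 : χ a = χ b := e.symm.injective h
    have h2 : ψ a = ψ b := congrArg Subtype.val h1
    exact Subtype.ext (ψ.toRingHom.injective h2)
  · intro b
    change e.symm (χ _) = β b
    rw [RingEquiv.symm_apply_eq]
    apply Subtype.ext
    exact hψb b

theorem hensel {R : Type*} [CommRing R] (f : (PowerSeries R)[X]) (hf : f.Monic) (t : R)
    (h0 : (f.map (PowerSeries.constantCoeff (R := R))).eval t = 0)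
    (h1 : IsUnit ((derivative (f.map (PowerSeries.constantCoeff (R := R)))).eval t)) :
    ∃ Θ : PowerSeries R, f.IsRoot Θ := by
  have hev : ∀ q : (PowerSeries R)[X], PowerSeries.constantCoeff (q.eval (PowerSeries.C t)) =
      (q.map (PowerSeries.constantCoeff (R := R))).eval t := by
    intro q
    rw [eval_map, ← Polynomial.eval₂_id, Polynomial.hom_eval₂]
    simp
  obtain ⟨a, ha, -⟩ := HenselianRing.is_henselian
    (I := (Ideal.span {PowerSeries.X} : Ideal (PowerSeries R))) f hf (PowerSeries.C t)
    (by rw [Ideal.mem_span_singleton, PowerSeries.X_dvd_iff, hev, h0])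
    (by
      apply IsUnit.map
      rw [PowerSeries.isUnit_iff_constantCoeff, hev, ← Polynomial.derivative_map]
      exact h1)
  exact ⟨a, ha⟩

end HenselAux

theorem exists_expansion {K F E : Type*} [Field K] [CharZero K] [IsAlgClosed K] [Field F] [Field E]
    [Algebra (BB K) F] [IsFractionRing (BB K) F] [Algebra F E] [Algebra (BB K) E]
    [IsScalarTower (BB K) F E] [Algebra K E] [IsScalarTower K (BB K) E] [FiniteDimensional F E]
    (Δ : BB K) (hΔ : Δ ≠ 0) :
    ∃ p : Fin 2 → K, MvPolynomial.eval p Δ ≠ 0 ∧
      ∀ (R : Type*) [CommRing R] [IsDomain R] [Algebra K R] (β : BB K →ₐ[K] PowerSeries R),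
        Function.Injective β →
        (∀ j, PowerSeries.constantCoeff (β (MvPolynomial.X j)) = algebraMap K R (p j)) →
        ∃ ι : integralClosure (BB K) E →+* PowerSeries R, Function.Injective ι ∧
          ∀ b, ι (algebraMap (BB K) (integralClosure (BB K) E) b) = β b := by
  have : CharZero F := charZero_of_injective_algebraMap (IsFractionRing.injective (BB K) F)
  have : Algebra.IsSeparable F E := Algebra.IsSeparable.of_integral F E
  obtain ⟨pb, hint⟩ := HenselAux.exists_gen (B := BB K) (F := F) (E := E)
  obtain ⟨D, hD0, hD⟩ := HenselAux.exists_den pb hint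
  have hsep : ((minpoly (BB K) pb.gen).map (algebraMap (BB K) F)).Separable := by
    rw [← minpoly.isIntegrallyClosed_eq_field_fractions' F hint]
    exact Algebra.IsSeparable.isSeparable F pb.gen
  obtain ⟨ρ, hρ, a, b, hab⟩ := HenselAux.exists_bezout _ hsep
  have hprod : Δ * D * ρ ≠ 0 := mul_ne_zero (mul_ne_zero hΔ hD0) hρ
  have hex : ∃ p : Fin 2 → K, MvPolynomial.eval p (Δ * D * ρ) ≠ 0 := by
    by_contra hne
    push Not at hne
    exact hprod (MvPolynomial.funext fun x => by rw [hne x, map_zero])
  obtain ⟨p, hp⟩ := hex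
  rw [map_mul, map_mul] at hp
  have hpΔ : MvPolynomial.eval p Δ ≠ 0 := left_ne_zero_of_mul (left_ne_zero_of_mul hp)
  have hpD : MvPolynomial.eval p D ≠ 0 := right_ne_zero_of_mul (left_ne_zero_of_mul hp)
  have hpρ : MvPolynomial.eval p ρ ≠ 0 := right_ne_zero_of_mul hp
  have hmon : (minpoly (BB K) pb.gen).Monic := minpoly.monic hint
  have hdeg : ((minpoly (BB K) pb.gen).map (MvPolynomial.eval p)).degree ≠ 0 := by
    rw [hmon.degree_map]
    exact (minpoly.degree_pos hint).ne'
  obtain ⟨t, ht⟩ := IsAlgClosed.exists_root _ hdeg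
  have ht' : (derivative ((minpoly (BB K) pb.gen).map (MvPolynomial.eval p))).eval t ≠ 0 := by
    intro h
    have h1 := congrArg (fun q => (Polynomial.map (MvPolynomial.eval p) q).eval t) hab
    simp only [Polynomial.map_add, Polynomial.map_mul, Polynomial.map_C, eval_add, eval_mul,
      eval_C, ← Polynomial.derivative_map, h, ht.eq_zero, mul_zero, add_zero] at h1
    exact hpρ h1.symm
  refine ⟨p, hpΔ, ?_⟩
  intro R _ _ _ β hβ hc
  have hcomp : (PowerSeries.constantCoeff (R := R)).comp β.toRingHom =
      (algebraMap K R).comp (MvPolynomial.eval p) := by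
    apply MvPolynomial.ringHom_ext
    · intro r
      have h1 : β (MvPolynomial.C r) = algebraMap K (PowerSeries R) r := β.commutes r
      simp only [RingHom.comp_apply, AlgHom.toRingHom_eq_coe, RingHom.coe_coe, h1,
        MvPolynomial.eval_C]
      rw [PowerSeries.algebraMap_apply, PowerSeries.constantCoeff_C]
    · intro j
      simp only [RingHom.comp_apply, AlgHom.toRingHom_eq_coe, RingHom.coe_coe, hc,
        MvPolynomial.eval_X]
  have hmap : ((minpoly (BB K) pb.gen).map β.toRingHom).map (PowerSeries.constantCoeff (R := R)) =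
      ((minpoly (BB K) pb.gen).map (MvPolynomial.eval p)).map (algebraMap K R) := by
    rw [Polynomial.map_map, Polynomial.map_map, hcomp]
  obtain ⟨Θ, hΘ⟩ := HenselAux.hensel ((minpoly (BB K) pb.gen).map β.toRingHom) (hmon.map _)
    (algebraMap K R t)
    (by rw [hmap, eval_map, eval₂_hom, ht.eq_zero, map_zero])
    (by
      rw [hmap, Polynomial.derivative_map, eval_map, eval₂_hom]
      exact (IsUnit.mk0 _ ht').map _)
  have hu : IsUnit (β.toRingHom D) := by
    rw [PowerSeries.isUnit_iff_constantCoeff]
    have h1 : PowerSeries.constantCoeff (β.toRingHom D) =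
        algebraMap K R (MvPolynomial.eval p D) := congrArg (fun g => g D) hcomp
    rw [h1]
    exact (IsUnit.mk0 _ hpD).map _
  exact HenselAux.exists_iota pb hint D hD β.toRingHom hβ hu Θ hΘ

end Pool.Agent.H643Z.Gen
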