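import Mathlib
import Pool.Agent.H643Z.Gen.Defs

set_option autoImplicit false

/-!
# Leading terms of power series, vanishing orders and their transfer
-/

namespace Pool.Agent.H643Z.Gen

/-- Additive maps with the Leibniz rule. -/
def IsDer {R : Type*} [CommRing R] (d : R → R) : Prop :=
  (∀ a b, d (a + b) = d a + d b) ∧ ∀ a b, d (a * b) = a * d b + b * d a

section van

variable {R Ω : Type*} [CommRing R] [CommRing Ω]

theorem IsDer.zero {d : R → R} (h : IsDer d) : d 0 = 0 := by
  have h1 := h.1 0 0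
  rw [add_zero] at h1
  exact left_eq_add.1 h1

theorem IsDer.sum {d : R → R} (h : IsDer d) {ι : Type*} (s : Finset ι) (f : ι → R) :
    d (∑ i ∈ s, f i) = ∑ i ∈ s, d (f i) :=
  map_sum (AddMonoidHom.mk' d h.1) f s

theorem van_zero (D : Fin 2 → R → R) (ev : R → Ω) (g : R) : Van D ev 0 g :=
  fun _ h => absurd h (Nat.not_lt_zero _)

theorem van_succ {D : Fin 2 → R → R} {ev : R → Ω} {M : ℕ} {g : R} :
    Van D ev (M + 1) g ↔ ev g = 0 ∧ ∀ b, Van D ev M (D b g) := by
  constructor
  · intro h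
    exact ⟨h [] (Nat.succ_pos _), fun b l hl => h (b :: l) (by simpa using hl)⟩
  · rintro ⟨h1, h2⟩ l hl
    cases l with
    | nil => exact h1
    | cons b l => exact h2 b l (by simpa using hl)

theorem Van.anti {D : Fin 2 → R → R} {ev : R → Ω} {M M' : ℕ} {g : R} (h : Van D ev M g)
    (hM : M' ≤ M) : Van D ev M' g := fun l hl => h l (lt_of_lt_of_le hl hM)

theorem van_add {D : Fin 2 → R → R} (hD : ∀ b, IsDer (D b)) (ev : R →+* Ω) {M : ℕ} :
    ∀ {g g' : R}, Van D ev M g → Van D ev M g' → Van D ev M (g + g') := by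
  induction M with
  | zero => exact fun _ _ => van_zero _ _ _
  | succ M ih =>
    intro g g' h h'
    rw [van_succ] at h h' ⊢
    refine ⟨by rw [map_add, h.1, h'.1, add_zero], fun b => ?_⟩
    rw [(hD b).1]
    exact ih (h.2 b) (h'.2 b)

theorem van_mul {D : Fin 2 → R → R} (hD : ∀ b, IsDer (D b)) (ev : R →+* Ω) {M : ℕ} :
    ∀ (a : R) {g : R}, Van D ev M g → Van D ev M (a * g) := by
  induction M with
  | zero => exact fun _ _ _ => van_zero _ _ _
  | succ M ih =>
    intro a g h
    have h0 := h.anti (Nat.le_succ M)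
    rw [van_succ] at h ⊢
    refine ⟨by rw [map_mul, h.1, mul_zero], fun b => ?_⟩
    rw [(hD b).2, mul_comm g]
    exact van_add hD ev (ih _ (h.2 b)) (ih _ h0)

theorem van_sum {D : Fin 2 → R → R} (hD : ∀ b, IsDer (D b)) (ev : R →+* Ω) {M : ℕ} {ι : Type*}
    (s : Finset ι) (f : ι → R) (h : ∀ i ∈ s, Van D ev M (f i)) : Van D ev M (∑ i ∈ s, f i) := by
  classical
  induction s using Finset.induction_on with
  | empty =>
    rw [Finset.sum_empty, ← zero_mul (0 : R)]
    intro l _
    have h1 : ∀ l : List (Fin 2), word D l (0 : R) = 0 := by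
      intro l
      induction l with
      | nil => rfl
      | cons b l ih => rw [word, (hD b).zero, ih]
    rw [zero_mul, h1, map_zero]
  | insert i s hi ih =>
    rw [Finset.sum_insert hi]
    exact van_add hD ev (h i (Finset.mem_insert_self _ _))
      (ih fun j hj => h j (Finset.mem_insert_of_mem hj))

theorem van_cancel [IsDomain Ω] {D : Fin 2 → R → R} (hD : ∀ b, IsDer (D b)) (ev : R →+* Ω) {a : R}
    (ha : ev a ≠ 0) {M : ℕ} : ∀ {g : R}, Van D ev M (a * g) → Van D ev M g := by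
  induction M with
  | zero => exact fun _ => van_zero _ _ _
  | succ M ih =>
    intro g h
    have h0 : Van D ev M g := ih (h.anti (Nat.le_succ M))
    rw [van_succ] at h ⊢
    refine ⟨?_, fun b => ih ?_⟩
    · have h1 := h.1
      rw [map_mul] at h1
      exact (mul_eq_zero.1 h1).resolve_left ha
    · have h1 := h.2 b
      rw [(hD b).2] at h1
      have h2 := van_add hD ev h1 (van_mul hD ev (-D b a) h0)
      have h3 : a * D b g + g * D b a + -D b a * g = a * D b g := by ring
      rwa [h3] at h2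

/-- Transfer of vanishing along a chain rule. -/
theorem van_transfer [IsDomain Ω] {A : Type*} (D : Fin 2 → A → A) (ι : A → R)
    {E : Fin 2 → R → R} (hE : ∀ b, IsDer (E b)) (ev : R →+* Ω) {Δ : R} (hΔ : ev Δ ≠ 0)
    (γ : Fin 2 → Fin 2 → R) (hch : ∀ b g, Δ * E b (ι g) = ∑ i, γ b i * ι (D i g)) {m : ℕ}
    (c : Fin m → R) (hc : ∀ b i, E b (c i) = 0) (M : ℕ) :
    ∀ g : Fin m → A, (∀ l : List (Fin 2), l.length < M →
      ∑ i, ev (c i) * ev (ι (word D l (g i))) = 0) → Van E ev M (∑ i, c i * ι (g i)) := by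
  induction M with
  | zero => exact fun _ _ => van_zero _ _ _
  | succ M ih =>
    intro g hg
    rw [van_succ]
    refine ⟨?_, fun b => van_cancel hE ev hΔ ?_⟩
    · have h1 := hg [] (Nat.succ_pos _)
      rw [map_sum]
      simpa [word] using h1
    · have h1 : Δ * E b (∑ i, c i * ι (g i)) = ∑ j, γ b j * ∑ i, c i * ι (D j (g i)) := by
        rw [(hE b).sum, Finset.mul_sum]
        simp only [Finset.mul_sum]
        rw [Finset.sum_comm]
        refine Finset.sum_congr rfl fun i _ => ?_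
        rw [(hE b).2, hc, mul_zero, add_zero, mul_left_comm, hch, Finset.mul_sum]
        exact Finset.sum_congr rfl fun j _ => by ring
      rw [h1]
      refine van_sum hE ev _ _ fun j _ => van_mul hE ev _ (ih _ fun l hl => ?_)
      exact hg (j :: l) (by simpa using hl)

end van

section series

open PowerSeries

variable {S : Type*} [CommRing S]

/-- A map applied to every coefficient. -/
noncomputable def psD (d : S → S) (h : S⟦X⟧) : S⟦X⟧ := mk fun j => d (coeff j h)

theorem coeff_psD (d : S → S) (h : S⟦X⟧) (j : ℕ) : coeff j (psD d h) = d (coeff j h) :=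
  coeff_mk _ _

theorem IsDer.psD {d : S → S} (h : IsDer d) : IsDer (psD d) := by
  refine ⟨fun a b => ?_, fun a b => ?_⟩
  · ext j
    rw [map_add, coeff_psD, coeff_psD, coeff_psD, map_add, h.1]
  · ext j
    rw [map_add, coeff_psD, mul_comm b, coeff_mul, coeff_mul, coeff_mul, h.sum,
      ← Finset.sum_add_distrib]
    refine Finset.sum_congr rfl fun p _ => ?_
    rw [h.2, coeff_psD, coeff_psD, mul_comm (coeff p.2 b)]

theorem coeff_word (d : Fin 2 → S → S) (l : List (Fin 2)) (j : ℕ) :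
    ∀ h : S⟦X⟧, coeff j (word (fun b => psD (d b)) l h) = word d l (coeff j h) := by
  induction l with
  | nil => exact fun _ => rfl
  | cons b l ih =>
    intro h
    rw [word, word, ih, coeff_psD]

theorem van_coeff {Ω : Type*} [CommRing Ω] {d : Fin 2 → S → S} (ev : S →+* Ω) {M : ℕ} {h : S⟦X⟧}
    (H : Van (fun b => psD (d b)) (PowerSeries.map ev) M h) (j : ℕ) : Van d ev M (coeff j h) := by
  intro l hl
  have h1 := congrArg (coeff j) (H l hl)
  rwa [coeff_map, coeff_word, map_zero] at h1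

/-- `a` is the first nonzero coefficient of `h`, in degree `o`. -/
def Lead (h : S⟦X⟧) (o : ℕ) (a : S) : Prop :=
  a ≠ 0 ∧ coeff o h = a ∧ ∀ j, j < o → coeff j h = 0

theorem exists_lead {h : S⟦X⟧} (h0 : h ≠ 0) : ∃ o a, Lead h o a := by
  classical
  have h1 : ∃ j, coeff j h ≠ 0 := by
    by_contra h2
    push Not at h2
    exact h0 (PowerSeries.ext fun j => by rw [h2 j, map_zero])
  exact ⟨Nat.find h1, _, Nat.find_spec h1, rfl, fun j hj => by
    simpa using Nat.find_min h1 hj⟩

theorem Lead.unique {h : S⟦X⟧} {o o' : ℕ} {a a' : S} (H : Lead h o a) (H' : Lead h o' a') :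
    o = o' ∧ a = a' := by
  have h1 : o = o' := by
    rcases lt_trichotomy o o' with h2 | h2 | h2
    · exact absurd (H.2.1.symm.trans (H'.2.2 o h2)) H.1
    · exact h2
    · exact absurd (H'.2.1.symm.trans (H.2.2 o' h2)) H'.1
  subst h1
  exact ⟨rfl, H.2.1.symm.trans H'.2.1⟩

theorem Lead.ne_zero {h : S⟦X⟧} {o : ℕ} {a : S} (H : Lead h o a) : h ≠ 0 := by
  rintro rfl
  exact H.1 (by rw [← H.2.1, map_zero])

theorem Lead.mul [IsDomain S] {h h' : S⟦X⟧} {o o' : ℕ} {a a' : S} (H : Lead h o a)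
    (H' : Lead h' o' a') : Lead (h * h') (o + o') (a * a') := by
  obtain ⟨h1, rfl⟩ := X_pow_dvd_iff.2 H.2.2
  obtain ⟨h2, rfl⟩ := X_pow_dvd_iff.2 H'.2.2
  have e1 : coeff 0 h1 = a := by
    rw [← H.2.1, ← coeff_X_pow_mul h1 o 0, zero_add]
  have e2 : coeff 0 h2 = a' := by
    rw [← H'.2.1, ← coeff_X_pow_mul h2 o' 0, zero_add]
  have e3 : X ^ o * h1 * (X ^ o' * h2) = X ^ (o + o') * (h1 * h2) := by ring
  rw [e3]
  refine ⟨mul_ne_zero H.1 H'.1, ?_, fun j hj => ?_⟩
  · have h3 := coeff_X_pow_mul (h1 * h2) (o + o') 0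
    rw [zero_add] at h3
    rw [h3, ← e1, ← e2, coeff_zero_eq_constantCoeff_apply, coeff_zero_eq_constantCoeff_apply,
      coeff_zero_eq_constantCoeff_apply, map_mul]
  · exact X_pow_dvd_iff.1 (dvd_mul_right _ _) j hj

theorem lead_mono {a : S} (ha : a ≠ 0) (o : ℕ) : Lead (X ^ o * C a) o a := by
  refine ⟨ha, ?_, fun j hj => X_pow_dvd_iff.1 (dvd_mul_right _ _) j hj⟩
  have h3 := coeff_X_pow_mul (C a) o 0
  rw [zero_add] at h3
  rw [h3, coeff_zero_C]

end series

section plane

open PowerSeries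

variable {T : Type*} [Field T]

/-- Every coefficient is weighted homogeneous of the weight given by its index. -/
def Hom (W : ℕ) (h : (BB T)⟦X⟧) : Prop :=
  ∀ j s, MvPolynomial.coeff s (coeff j h) ≠ 0 → j = s 0 + W * s 1

/-- The first coefficient is a monomial in the triangle. -/
def Good (e D : ℕ) (h : (BB T)⟦X⟧) : Prop :=
  ∃ (o : ℕ) (s : Fin 2 →₀ ℕ) (c : T), s 0 + e * s 1 ≤ D ∧ Lead h o (MvPolynomial.monomial s c)

theorem echelon {W e D m : ℕ} (v : Fin m → (BB T)⟦X⟧) (hH : ∀ i, Hom W (v i))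
    (hG : ∀ τ : Fin m → T, τ ≠ 0 → Good e D (∑ i, C (MvPolynomial.C (τ i)) * v i))
    (c : Fin m → T⟦X⟧) (hc : c ≠ 0) :
    ∃ j, coeff j (∑ i, PowerSeries.map MvPolynomial.C (c i) * v i) ≠ 0 ∧
      ∀ s ∈ (coeff j (∑ i, PowerSeries.map MvPolynomial.C (c i) * v i)).support,
        s 0 + e * s 1 ≤ D := by
  classical
  let hh : ℕ → (BB T)⟦X⟧ := fun a => ∑ i, C (MvPolynomial.C (coeff a (c i))) * v i
  have hco : ∀ j, coeff j (∑ i, PowerSeries.map MvPolynomial.C (c i) * v i) =
      ∑ p ∈ Finset.HasAntidiagonal.antidiagonal j, coeff p.2 (hh p.1) := by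
    intro j
    simp only [hh, map_sum, coeff_mul, coeff_map]
    rw [Finset.sum_comm]
    refine Finset.sum_congr rfl fun p _ => Finset.sum_congr rfl fun i _ => ?_
    rw [← coeff_mul, coeff_C_mul]
  have hHom : ∀ a, Hom W (hh a) := by
    intro a j s hs
    simp only [hh, map_sum, coeff_C_mul, MvPolynomial.coeff_sum, MvPolynomial.coeff_C_mul] at hs
    obtain ⟨i, _, hi⟩ := Finset.exists_ne_zero_of_sum_ne_zero hs
    exact hH i j s (right_ne_zero_of_mul hi)
  have hgood : ∀ a, hh a ≠ 0 → Good e D (hh a) := by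
    intro a ha
    refine hG (fun i => coeff a (c i)) fun h0 => ha ?_
    refine Finset.sum_eq_zero fun i _ => ?_
    rw [show coeff a (c i) = 0 from congrFun h0 i, map_zero, map_zero, zero_mul]
  have hex : ∃ μ, ∃ p ∈ Finset.HasAntidiagonal.antidiagonal μ, coeff p.2 (hh p.1) ≠ 0 := by
    obtain ⟨i, hi⟩ := Function.ne_iff.1 hc
    obtain ⟨a, _, ha, ha', _⟩ := exists_lead hi
    obtain ⟨o, s, x, _, h1⟩ := hG (fun i => coeff a (c i)) fun h0 => ha (ha'.symm.trans
      (congrFun h0 i))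
    exact ⟨a + o, (a, o), Finset.HasAntidiagonal.mem_antidiagonal.2 rfl, by
      rw [show coeff o (hh a) = _ from h1.2.1]; exact h1.1⟩
  refine ⟨Nat.find hex, ?_, ?_⟩
  · obtain ⟨p, hp, hp0⟩ := Nat.find_spec hex
    obtain ⟨s, hs⟩ := MvPolynomial.ne_zero_iff.1 hp0
    rw [hco, MvPolynomial.ne_zero_iff]
    refine ⟨s, ?_⟩
    rw [MvPolynomial.coeff_sum, Finset.sum_eq_single p]
    · exact hs
    · intro q hq hqp
      by_contra h0
      have h1 := hHom _ _ _ h0
      have h2 := hHom _ _ _ hs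
      rw [Finset.HasAntidiagonal.mem_antidiagonal] at hp hq
      exact hqp (Prod.ext (by omega) (by omega))
    · intro h
      exact absurd hp h
  · intro s hs
    rw [hco, MvPolynomial.mem_support_iff, MvPolynomial.coeff_sum] at hs
    obtain ⟨q, hq, hq0⟩ := Finset.exists_ne_zero_of_sum_ne_zero hs
    have hq1 : coeff q.2 (hh q.1) ≠ 0 := fun h0 => hq0 (by rw [h0, MvPolynomial.coeff_zero])
    obtain ⟨o, s', x, h1, h2⟩ := hgood q.1 fun h0 => hq1 (by rw [h0, map_zero])
    have h3 : Lead (hh q.1) q.2 (coeff q.2 (hh q.1)) := by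
      refine ⟨hq1, rfl, fun j hj => ?_⟩
      by_contra h0
      rw [Finset.HasAntidiagonal.mem_antidiagonal] at hq
      exact Nat.find_min hex (show q.1 + j < Nat.find hex by omega)
        ⟨(q.1, j), Finset.HasAntidiagonal.mem_antidiagonal.2 rfl, h0⟩
    rw [(h3.unique h2).2, MvPolynomial.coeff_monomial] at hq0
    have h4 : s' = s := by
      by_contra h5
      exact hq0 (if_neg h5)
    rwa [← h4]

end plane

end Pool.Agent.H643Z.Gen
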