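import Mathlib
import Pool.Agent.H643Z.Gen.Defs

set_option autoImplicit false

namespace Pool.Agent.H643Z.Gen

open Polynomial Filter Topology

namespace MinorAux

lemma exists_minor_field {L : Type*} [Field L] {m : ℕ} {κ : Type*} (v : κ → Fin m → L)
    (h : ∀ c : Fin m → L, (∀ k, ∑ i, c i * v k i = 0) → c = 0) :
    ∃ f : Fin m → κ, (Matrix.of fun j i => v (f j) i).det ≠ 0 := by
  classical
  have hspan : Submodule.span L (Set.range v) = ⊤ := by
    by_contra hne
    obtain ⟨φ, hφ0, hφ⟩ := Submodule.exists_le_ker_of_lt_top _ (lt_top_iff_ne_top.mpr hne)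
    have hexp : ∀ y : Fin m → L, φ y = ∑ i, φ (Pi.single i 1) * y i := by
      intro y
      rw [LinearMap.pi_apply_eq_sum_univ φ y]
      refine Finset.sum_congr rfl fun i _ => ?_
      rw [smul_eq_mul, mul_comm]
      congr 2
      funext j
      simp [Pi.single_apply, eq_comm]
    have h1 := h (fun i => φ (Pi.single i 1)) (fun k => by
      rw [← hexp]
      exact hφ (Submodule.subset_span ⟨k, rfl⟩))
    apply hφ0
    refine LinearMap.ext fun y => ?_
    rw [hexp]
    refine Finset.sum_eq_zero fun i _ => ?_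
    rw [congrFun h1 i]
    simp
  obtain ⟨κ', a, _, hsp, hli⟩ := exists_linearIndependent' L v
  let b : Module.Basis κ' L (Fin m → L) := Module.Basis.mk hli (by rw [hsp, hspan])
  let e : κ' ≃ Fin m := b.indexEquiv (Pi.basisFun L (Fin m))
  refine ⟨fun j => a (e.symm j), ?_⟩
  have h2 : LinearIndependent L (Matrix.of fun j i => v (a (e.symm j)) i).row :=
    hli.comp e.symm e.symm.injective
  have h3 := Matrix.linearIndependent_rows_iff_isUnit.mp h2
  exact ((Matrix.isUnit_iff_isUnit_det _).mp h3).ne_zero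

lemma exists_minor {Ω : Type*} [CommRing Ω] [IsDomain Ω] {m : ℕ} {κ : Type*} (w : κ → Fin m → Ω)
    (h : ∀ c : Fin m → Ω, (∀ k, ∑ i, c i * w k i = 0) → c = 0) :
    ∃ f : Fin m → κ, (Matrix.of fun j i => w (f j) i).det ≠ 0 := by
  classical
  have hinj : Function.Injective (algebraMap Ω (FractionRing Ω)) := IsFractionRing.injective _ _
  obtain ⟨f, hf⟩ := exists_minor_field (L := FractionRing Ω)
    (fun k i => algebraMap Ω (FractionRing Ω) (w k i)) (fun d hd => by
      obtain ⟨b, hb⟩ := IsLocalization.exist_integer_multiples_of_finite (nonZeroDivisors Ω) d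
      choose c hc using hb
      have h1 : c = 0 := h c fun k => by
        apply hinj
        rw [map_sum, map_zero]
        simp only [map_mul, hc, smul_mul_assoc]
        rw [← Finset.smul_sum, hd k, smul_zero]
      funext i
      have h2 := hc i
      rw [h1, Pi.zero_apply, map_zero, Algebra.smul_def] at h2
      refine (mul_eq_zero.mp h2.symm).resolve_left ?_
      intro h3
      exact nonZeroDivisors.coe_ne_zero b (hinj (by rw [h3, map_zero])))
  refine ⟨f, fun h0 => hf ?_⟩
  have := (algebraMap Ω (FractionRing Ω)).map_det (Matrix.of fun j i => w (f j) i)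
  rw [h0, map_zero] at this
  exact this.symm

lemma aeval_rename_block {K A S : Type*} [Field K] [CommRing A] [Algebra K A] [CommRing S]
    [Algebra K S] {N n : ℕ} (x : Fin N → A) (P : Fin n → (A →ₐ[K] S)) (r : Fin n)
    (q : MvPolynomial (Fin N) K) :
    MvPolynomial.aeval (fun q : Fin n × Fin N => P q.1 (x q.2))
      (MvPolynomial.rename (fun l => (r, l)) q) = P r (MvPolynomial.aeval x q) := by
  rw [MvPolynomial.aeval_rename, MvPolynomial.comp_aeval_apply]
  rfl

end MinorAux

theorem minor_open {K A Ω : Type*} [Field K] [IsAlgClosed K] [CommRing A] [Algebra K A]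
    [CommRing Ω] [IsDomain Ω] [Algebra K Ω] {N n m : ℕ} (x : Fin N → A)
    (hx : Function.Surjective (MvPolynomial.aeval x : MvPolynomial (Fin N) K →ₐ[K] A))
    {κ : Type*} (a : κ → Fin m → A) (ρ : κ → Fin n) (Δ : A) (Q : Fin n → (A →ₐ[K] Ω))
    (hΔ : ∀ r, Q r Δ ≠ 0)
    (hQ : ∀ c : Fin m → Ω, (∀ k, ∑ i, c i * Q (ρ k) (a k i) = 0) → c = 0) :
    ∃ G : MvPolynomial (Fin n × Fin N) K,
      (∃ P : Fin n → (A →ₐ[K] K),
        MvPolynomial.eval (fun q : Fin n × Fin N => P q.1 (x q.2)) G ≠ 0) ∧
      ∀ P : Fin n → (A →ₐ[K] K),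
        MvPolynomial.eval (fun q : Fin n × Fin N => P q.1 (x q.2)) G ≠ 0 →
        (∀ r, P r Δ ≠ 0) ∧
          ∀ c : Fin m → K, (∀ k, ∑ i, c i * P (ρ k) (a k i) = 0) → c = 0 := by
  classical
  obtain ⟨f, hf⟩ := MinorAux.exists_minor (fun k i => Q (ρ k) (a k i)) hQ
  choose q hq using hx
  let G : MvPolynomial (Fin n × Fin N) K :=
    (Matrix.of fun j i => MvPolynomial.rename (fun l => (ρ (f j), l)) (q (a (f j) i))).det *
      ∏ r, MvPolynomial.rename (fun l => (r, l)) (q Δ)
  have hGK : ∀ P : Fin n → (A →ₐ[K] K),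
      MvPolynomial.aeval (fun q : Fin n × Fin N => P q.1 (x q.2)) G =
        (Matrix.of fun j i => P (ρ (f j)) (a (f j) i)).det * ∏ r, P r Δ := by
    intro P
    simp only [G, map_mul, map_prod, MinorAux.aeval_rename_block, hq]
    congr 1
    rw [AlgHom.map_det]
    congr 1
    ext j i
    simp only [AlgHom.mapMatrix_apply, Matrix.map_apply, Matrix.of_apply,
      MinorAux.aeval_rename_block, hq]
  have hGΩ : MvPolynomial.aeval (fun q : Fin n × Fin N => Q q.1 (x q.2)) G =
        (Matrix.of fun j i => Q (ρ (f j)) (a (f j) i)).det * ∏ r, Q r Δ := by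
    simp only [G, map_mul, map_prod, MinorAux.aeval_rename_block, hq]
    congr 1
    rw [AlgHom.map_det]
    congr 1
    ext j i
    simp only [AlgHom.mapMatrix_apply, Matrix.map_apply, Matrix.of_apply,
      MinorAux.aeval_rename_block, hq]
  refine ⟨G, ?_, fun P hP => ?_⟩
  · let ψ : MvPolynomial (Fin n × Fin N) K →ₐ[K] Ω :=
      MvPolynomial.aeval (fun q : Fin n × Fin N => Q q.1 (x q.2))
    have hprime : (RingHom.ker ψ).IsPrime := RingHom.ker_isPrime ψ
    have hG0 : G ∉ RingHom.ker ψ := by
      rw [RingHom.mem_ker, hGΩ]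
      exact mul_ne_zero hf (Finset.prod_ne_zero_iff.mpr fun r _ => hΔ r)
    rw [← hprime.radical, ← MvPolynomial.vanishingIdeal_zeroLocus_eq_radical (K := K),
      MvPolynomial.mem_vanishingIdeal_iff] at hG0
    push Not at hG0
    obtain ⟨y, hy, hyG⟩ := hG0
    have hsurj : Function.Surjective
        (MvPolynomial.aeval x : MvPolynomial (Fin N) K →ₐ[K] A) := fun z => ⟨q z, hq z⟩
    have hker : ∀ r : Fin n, RingHom.ker
        (MvPolynomial.aeval x : MvPolynomial (Fin N) K →ₐ[K] A).toRingHom ≤
        RingHom.ker (MvPolynomial.aeval (fun l => y (r, l)) :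
          MvPolynomial (Fin N) K →ₐ[K] K).toRingHom := by
      intro r p hp
      have hp' : MvPolynomial.aeval x p = 0 := hp
      have h1 : MvPolynomial.rename (fun l => (r, l)) p ∈ RingHom.ker ψ := by
        rw [RingHom.mem_ker, MinorAux.aeval_rename_block, hp', map_zero]
      have h2 := hy _ h1
      rw [MvPolynomial.aeval_rename] at h2
      exact h2
    refine ⟨fun r => AlgHom.liftOfSurjective _ hsurj _ (hker r), ?_⟩
    have h3 : (fun q : Fin n × Fin N =>
        AlgHom.liftOfSurjective _ hsurj _ (hker q.1) (x q.2)) = y := by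
      funext p
      have h4 := AlgHom.liftOfSurjective_apply _ hsurj _ (hker p.1) (MvPolynomial.X p.2)
      rw [MvPolynomial.aeval_X, MvPolynomial.aeval_X] at h4
      exact h4
    rw [h3, ← MvPolynomial.coe_aeval_eq_eval]
    exact hyG
  · rw [← MvPolynomial.coe_aeval_eq_eval] at hP
    have hP' := hP
    rw [RingHom.coe_coe, hGK P] at hP'
    refine ⟨fun r => Finset.prod_ne_zero_iff.mp (right_ne_zero_of_mul hP') r (Finset.mem_univ r),
      fun c hc => ?_⟩
    refine Matrix.eq_zero_of_mulVec_eq_zero (left_ne_zero_of_mul hP') ?_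
    funext j
    have := hc (f j)
    simp only [Matrix.mulVec, dotProduct, Matrix.of_apply, Pi.zero_apply]
    rw [← this]
    exact Finset.sum_congr rfl fun i _ => mul_comm _ _

end Pool.Agent.H643Z.Gen
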