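import Mathlib
import Pool.Agent.H643Z.Gen.Defs

set_option autoImplicit false

namespace Pool.Agent.H643Z.Gen

open Polynomial Filter Topology

namespace NoetherAux

theorem prod_deg {S ι : Type*} [CommRing S] (s : Finset ι) (g : ι → S[X]) (n : ι → ℕ)
    (h : ∀ i, (g i).natDegree ≤ n i) :
    (∏ i ∈ s, g i).natDegree ≤ ∑ i ∈ s, n i ∧
      (∏ i ∈ s, g i).coeff (∑ i ∈ s, n i) = ∏ i ∈ s, (g i).coeff (n i) := by
  classical
  induction s using Finset.induction_on with
  | empty => simp
  | insert i s hi ih =>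
    rw [Finset.prod_insert hi, Finset.sum_insert hi, Finset.prod_insert hi]
    refine ⟨natDegree_mul_le.trans (add_le_add (h i) ih.1), ?_⟩
    rw [coeff_mul_add_eq_of_natDegree_le (h i) ih.1, ih.2]

theorem homog {K E ι : Type*} [Field K] [CommRing E] [Algebra K E] [Fintype ι]
    (p : MvPolynomial ι K) (y : ι → E) (c : E) (d : ℕ) (hd : p.totalDegree ≤ d) :
    c ^ d * MvPolynomial.aeval y p = ∑ σ ∈ p.support,
      algebraMap K E (p.coeff σ) * c ^ (d - ∑ i, σ i) * ∏ i, (c * y i) ^ σ i := by
  rw [MvPolynomial.aeval_def, MvPolynomial.eval₂_eq', Finset.mul_sum]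
  refine Finset.sum_congr rfl fun σ hσ => ?_
  have h1 : ∑ i, σ i ≤ d := by
    refine le_trans ?_ hd
    have := MvPolynomial.le_totalDegree hσ
    rwa [Finsupp.sum_fintype _ _ (fun _ => rfl)] at this
  simp only [mul_pow, Finset.prod_mul_distrib, Finset.prod_pow_eq_pow_sum]
  rw [← pow_sub_mul_pow c h1]
  ring

theorem step {K S E ι : Type*} [Field K] [CommRing S] [CommRing E] [Algebra K S] [Algebra S E]
    [Algebra K E] [IsScalarTower K S E] [Fintype ι] (f : MvPolynomial ι K) (a : ι → K)
    (ha : MvPolynomial.eval a (MvPolynomial.homogeneousComponent f.totalDegree f) ≠ 0)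
    (y : ι → E) (hy : MvPolynomial.aeval y f = 0) (c : S) (w : ι → S) (t : E)
    (h : ∀ i, algebraMap S E c * y i = algebraMap S E (w i) + algebraMap K E (a i) * t) :
    IsIntegral S t := by
  classical
  set r := f.totalDegree with hr
  set lam := MvPolynomial.eval a (MvPolynomial.homogeneousComponent r f) with hlam
  let g : (ι →₀ ℕ) → S[X] := fun σ => ∏ i, (C (w i) + C (algebraMap K S (a i)) * X) ^ σ i
  have hlin : ∀ i, (C (w i) + C (algebraMap K S (a i)) * X : S[X]).natDegree ≤ 1 := by
    intro i
    refine (natDegree_add_le _ _).trans (max_le (by simp) ?_)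
    exact (natDegree_C_mul_le _ _).trans natDegree_X_le
  have hg : ∀ σ : ι →₀ ℕ, (g σ).natDegree ≤ ∑ i, σ i ∧
      (g σ).coeff (∑ i, σ i) = ∏ i, algebraMap K S (a i) ^ σ i := by
    intro σ
    have := prod_deg Finset.univ (fun i => (C (w i) + C (algebraMap K S (a i)) * X : S[X]) ^ σ i)
      (fun i => σ i) (fun i => natDegree_pow_le.trans (by
        simpa using Nat.mul_le_mul_left (σ i) (hlin i)))
    refine ⟨this.1, this.2.trans (Finset.prod_congr rfl fun i _ => ?_)⟩
    have h2 := coeff_pow_of_natDegree_le (m := σ i) (hlin i)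
    rw [mul_one] at h2
    rw [h2]
    simp [coeff_C]
  have hle : ∀ σ ∈ f.support, ∑ i, σ i ≤ r := by
    intro σ hσ
    have := MvPolynomial.le_totalDegree hσ
    rwa [Finsupp.sum_fintype _ _ (fun _ => rfl)] at this
  let Φ : S[X] := ∑ σ ∈ f.support,
    C (algebraMap K S (f.coeff σ) * c ^ (r - ∑ i, σ i)) * g σ
  have hdeg : Φ.natDegree ≤ r := by
    refine natDegree_sum_le_of_forall_le _ _ fun σ hσ => ?_
    exact (natDegree_C_mul_le _ _).trans ((hg σ).1.trans (hle σ hσ))
  have hcoeff : Φ.coeff r = algebraMap K S lam := by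
    rw [hlam, MvPolynomial.homogeneousComponent_apply, map_sum, map_sum, finsetSum_coeff,
      Finset.sum_filter]
    refine Finset.sum_congr rfl fun σ hσ => ?_
    rw [coeff_C_mul]
    have hdeg' : σ.degree = ∑ i, σ i := Finsupp.degree_eq_sum σ
    by_cases h1 : ∑ i, σ i = r
    · rw [if_pos (hdeg'.trans h1), MvPolynomial.eval_monomial, Finsupp.prod_fintype _ _ (by simp)]
      have := (hg σ).2
      rw [h1] at this
      rw [this, h1]
      simp
    · rw [if_neg (fun h2 => h1 (hdeg'.symm.trans h2)),
        coeff_eq_zero_of_natDegree_lt (lt_of_le_of_lt (hg σ).1 (lt_of_le_of_ne (hle σ hσ) h1)),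
        mul_zero]
  have heval : aeval t Φ = 0 := by
    have := homog f y (algebraMap S E c) r le_rfl
    rw [hy, mul_zero] at this
    rw [this, map_sum]
    refine Finset.sum_congr rfl fun σ _ => ?_
    simp only [g, map_mul, aeval_C, map_pow, map_prod, map_add, aeval_X, h,
      ← IsScalarTower.algebraMap_apply]
  refine ⟨C (algebraMap K S lam⁻¹) * Φ, ?_, ?_⟩
  · apply monic_of_natDegree_le_of_coeff_eq_one r ((natDegree_C_mul_le _ _).trans hdeg)
    rw [coeff_C_mul, hcoeff, ← map_mul, inv_mul_cancel₀ ha, map_one]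
  · rw [← aeval_def, map_mul, heval, mul_zero]

/-- degree-controlled integrality of `y` over `z` -/
def Q (K : Type*) {A : Type*} (E : Type*) [Field K] [CommRing A] [CommRing E] [Algebra K E]
    [Algebra A E] {s m : ℕ} (z : Fin s → A) (y : Fin m → A) : Prop :=
  ∀ (c : E) (i : Fin m), IsIntegral
    (Algebra.adjoin K (insert c (Set.range fun j => c * algebraMap A E (z j))))
    (c * algebraMap A E (y i))

theorem int_mem {K E : Type*} [Field K] [CommRing E] [Algebra K E] (R : Subalgebra K E) {e : E}
    (he : e ∈ R) : IsIntegral R e :=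
  isIntegral_algebraMap (x := (⟨e, he⟩ : R))

theorem Q_refl (K : Type*) {A : Type*} (E : Type*) [Field K] [CommRing A] [CommRing E]
    [Algebra K E] [Algebra A E] {m : ℕ} (y : Fin m → A) : Q K E y y :=
  fun _ i => int_mem _ (Algebra.subset_adjoin (Or.inr ⟨i, rfl⟩))

theorem Q_step {K A : Type*} (E : Type*) [Field K] [CommRing A] [CommRing E] [Algebra K A]
    [Algebra K E] [Algebra A E] [IsScalarTower K A E] {s m : ℕ} (z : Fin s → A)
    (y : Fin (m + 1) → A) (f : MvPolynomial (Fin (m + 1)) K) (a : Fin (m + 1) → K)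
    (ha : MvPolynomial.eval a (MvPolynomial.homogeneousComponent f.totalDegree f) ≠ 0)
    (ha' : a (Fin.last m) ≠ 0) (hy : MvPolynomial.aeval y f = 0)
    (h : Q K E z fun i : Fin m =>
      y i.castSucc - (a i.castSucc * (a (Fin.last m))⁻¹) • y (Fin.last m)) : Q K E z y := by
  intro c
  set R := Algebra.adjoin K (insert c (Set.range fun j => c * algebraMap A E (z j))) with hR
  let t : E := c * algebraMap A E ((a (Fin.last m))⁻¹ • y (Fin.last m))
  let w0 : Fin (m + 1) → E := fun i =>
    c * algebraMap A E (y i - (a i * (a (Fin.last m))⁻¹) • y (Fin.last m))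
  have hw0 : ∀ i, IsIntegral R (w0 i) := by
    intro i
    refine Fin.lastCases ?_ (fun i => h c i) i
    simp only [w0, mul_inv_cancel₀ ha', one_smul, sub_self, map_zero, mul_zero]
    exact isIntegral_zero
  have hc : IsIntegral R c := int_mem _ (Algebra.subset_adjoin (Or.inl rfl))
  have key : ∀ i, c * algebraMap A E (y i) = w0 i + algebraMap K E (a i) * t := by
    intro i
    simp only [w0, t, Algebra.smul_def, map_sub, map_mul, ← IsScalarTower.algebraMap_apply]
    ring
  have ht : IsIntegral (integralClosure R E) t := by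
    refine step (K := K) f a ha (fun i => algebraMap A E (y i)) ?_ ⟨c, hc⟩
      (fun i => ⟨w0 i, hw0 i⟩) t key
    have := MvPolynomial.aeval_algebraMap_apply (B := E) y f
    exact this.trans (by rw [hy, map_zero])
  have ht' : IsIntegral R t := isIntegral_trans (A := integralClosure R E) t ht
  intro i
  rw [key]
  exact (hw0 i).add ((int_mem _ (R.algebraMap_mem _)).mul ht')

theorem main {K A : Type*} (E : Type*) [Field K] [Infinite K] [CommRing A] [CommRing E]
    [Algebra K A] [Algebra K E] [Algebra A E] [IsScalarTower K A E] (m : ℕ) (y : Fin m → A) :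
    AlgebraicIndependent K (fun i : Fin 0 => (i.elim0 : A)) →
    ∃ (s : ℕ) (z : Fin s → A), AlgebraicIndependent K z ∧
      (∀ j, z j ∈ Submodule.span K (Set.range y)) ∧ Q K E z y ∧ Q K A z y := by
  intro h0
  induction m with
  | zero =>
    refine ⟨0, y, ?_, fun j => j.elim0, Q_refl K E y, Q_refl K A y⟩
    convert h0
  | succ m ih =>
    by_cases hy : AlgebraicIndependent K y
    · exact ⟨_, y, hy, fun j => Submodule.subset_span ⟨j, rfl⟩, Q_refl K E y, Q_refl K A y⟩
    rw [algebraicIndependent_iff] at hy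
    push Not at hy
    obtain ⟨f, hf, hf0⟩ := hy
    have h1 : MvPolynomial.homogeneousComponent f.totalDegree f ≠ 0 := by
      intro h
      obtain ⟨σ, hσ, hσ'⟩ := Finset.exists_mem_eq_sup f.support
        (MvPolynomial.support_nonempty.mpr hf0) (fun s => s.sum fun _ e => e)
      have h2 := congrArg (MvPolynomial.coeff σ) h
      rw [MvPolynomial.coeff_homogeneousComponent, if_pos, MvPolynomial.coeff_zero] at h2
      · exact MvPolynomial.mem_support_iff.mp hσ h2
      · rw [MvPolynomial.totalDegree, hσ']; rfl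
    have h2 : MvPolynomial.homogeneousComponent f.totalDegree f * MvPolynomial.X (Fin.last m) ≠ 0 :=
      mul_ne_zero h1 (MvPolynomial.X_ne_zero _)
    obtain ⟨a, ha⟩ : ∃ a : Fin (m + 1) → K, MvPolynomial.eval a
        (MvPolynomial.homogeneousComponent f.totalDegree f * MvPolynomial.X (Fin.last m)) ≠ 0 := by
      by_contra h
      push Not at h
      exact h2 (MvPolynomial.funext fun a => by rw [h a, map_zero])
    rw [map_mul, MvPolynomial.eval_X, mul_ne_zero_iff] at ha
    obtain ⟨s, z, hz1, hz2, hz3, hz4⟩ := ih fun i : Fin m =>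
      y i.castSucc - (a i.castSucc * (a (Fin.last m))⁻¹) • y (Fin.last m)
    refine ⟨s, z, hz1, fun j => Submodule.span_le.mpr ?_ (hz2 j),
      Q_step E z y f a ha.1 ha.2 hf hz3, Q_step A z y f a ha.1 ha.2 hf hz4⟩
    rintro _ ⟨i, rfl⟩
    exact Submodule.sub_mem _ (Submodule.subset_span ⟨_, rfl⟩)
      (Submodule.smul_mem _ _ (Submodule.subset_span ⟨_, rfl⟩))

theorem Q_poly {K A : Type*} (E : Type*) [Field K] [CommRing A] [CommRing E] [Algebra K A]
    [Algebra K E] [Algebra A E] [IsScalarTower K A E] {s m : ℕ} {z : Fin s → A} {y : Fin m → A}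
    (h : Q K E z y) (c : E) (d : ℕ) (p : MvPolynomial (Fin m) K) (hp : p.totalDegree ≤ d) :
    IsIntegral (Algebra.adjoin K (insert c (Set.range fun j => c * algebraMap A E (z j))))
      (c ^ d * algebraMap A E (MvPolynomial.aeval y p)) := by
  rw [← MvPolynomial.aeval_algebraMap_apply (B := E) y p, homog p _ c d hp]
  refine IsIntegral.sum _ fun σ _ => ?_
  have hc : IsIntegral (Algebra.adjoin K (insert c (Set.range fun j => c * algebraMap A E (z j))))
      c := int_mem _ (Algebra.subset_adjoin (Set.mem_insert _ _))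
  refine ((int_mem _ (Subalgebra.algebraMap_mem _ _)).mul (hc.pow _)).mul ?_
  exact IsIntegral.prod _ fun i _ => (h c i).pow _

end NoetherAux

theorem noether_two {K A : Type*} [Field K] [Infinite K] [CommRing A] [IsDomain A] [Algebra K A]
    {N : ℕ} (x : Fin N → A)
    (hx : Function.Surjective (MvPolynomial.aeval x : MvPolynomial (Fin N) K →ₐ[K] A))
    (htr : Algebra.trdeg K A = 2) (E : Type*) [Field E] [Algebra A E] [IsFractionRing A E]
    [Algebra K E] [IsScalarTower K A E] :
    ∃ z : Fin 2 → A, AlgebraicIndependent K z ∧ (∀ j, z j ∈ Fil K x 1) ∧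
      ∀ (d : ℕ), ∀ g ∈ Fil K x d,
        Ctl K (algebraMap A E (z 0)) (algebraMap A E (z 1)) d (algebraMap A E g) := by
  obtain ⟨s, z, hz1, hz2, hz3, hz4⟩ := NoetherAux.main (K := K) E N x
    (algebraicIndependent_empty_type_iff.mpr (algebraMap K A).injective)
  have hs : s = 2 := by
    have halg : Algebra.IsAlgebraic (Algebra.adjoin K (Set.range z)) A := by
      refine ⟨fun g => ?_⟩
      obtain ⟨p, rfl⟩ := hx g
      have := NoetherAux.Q_poly A hz4 1 _ p le_rfl
      have e : Algebra.adjoin K (insert (1 : A) (Set.range fun j => 1 * algebraMap A A (z j))) =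
          Algebra.adjoin K (Set.range z) := by
        simp [Algebra.adjoin_insert_one]
      rw [e, one_pow, one_mul] at this
      exact this.isAlgebraic
    have hb : IsTranscendenceBasis K z := hz1.isTranscendenceBasis_iff_isAlgebraic.mpr halg
    have h1 := hb.lift_cardinalMk_eq_trdeg
    rw [htr] at h1
    simp only [Cardinal.mk_fin, Cardinal.lift_natCast, Cardinal.lift_ofNat] at h1
    exact_mod_cast h1
  subst hs
  refine ⟨z, hz1, fun j => Submodule.span_le.mpr ?_ (hz2 j), ?_⟩
  · rintro _ ⟨i, rfl⟩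
    refine ⟨MvPolynomial.X i, ?_, by simp⟩
    simp [MvPolynomial.mem_restrictTotalDegree]
  · rintro d _ ⟨p, hp, rfl⟩ c
    have := NoetherAux.Q_poly E hz3 c d p ((MvPolynomial.mem_restrictTotalDegree _ _ _).mp hp)
    have e : (insert c (Set.range fun j => c * algebraMap A E (z j))) =
        ({c, c * algebraMap A E (z 0), c * algebraMap A E (z 1)} : Set E) := by
      congr 1
      ext e
      simp only [Set.mem_range, Fin.exists_fin_two, Set.mem_insert_iff, Set.mem_singleton_iff,
        eq_comm]
    rw [e] at this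
    exact this

end Pool.Agent.H643Z.Gen
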