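import Mathlib
import Pool.Agent.H643Z.Gen.Defs

set_option autoImplicit false

namespace Pool.Agent.H643Z.Gen

open Polynomial Filter Topology

namespace NormAux

theorem int_of_adjoin {K R E : Type*} [Field K] [CommRing R] [CommRing E] [Algebra K E]
    [Algebra R E] (T : Set E) (hK : ∀ k : K, IsIntegral R (algebraMap K E k))
    (hT : ∀ t ∈ T, IsIntegral R t) {x : E} (hx : IsIntegral (Algebra.adjoin K T) x) :
    IsIntegral R x := by
  have hS : ∀ s ∈ Algebra.adjoin K T, s ∈ integralClosure R E := by
    intro s hs
    induction hs using Algebra.adjoin_induction with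
    | mem t ht => exact hT t ht
    | algebraMap k => exact hK k
    | add a b _ _ ha hb => exact add_mem ha hb
    | mul a b _ _ ha hb => exact mul_mem ha hb
  let φ : Algebra.adjoin K T →+* integralClosure R E :=
    ((Algebra.adjoin K T).val.toRingHom).codRestrict (integralClosure R E) fun s => hS s.1 s.2
  have h : IsIntegral (integralClosure R E) ((RingHom.id E) x) :=
    IsIntegral.map_of_comp_eq φ (RingHom.id E) (by ext s; rfl) hx
  exact isIntegral_trans x h

theorem coeff_prod_int {R W ι : Type*} [CommRing R] [CommRing W] [Algebra R W] (S : Finset ι)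
    (p : ι → W[X]) (h : ∀ i ∈ S, ∀ j, IsIntegral R ((p i).coeff j)) :
    ∀ j, IsIntegral R ((∏ i ∈ S, p i).coeff j) := by
  refine Finset.prod_induction p (fun q => ∀ j, IsIntegral R (q.coeff j)) ?_ ?_ h
  · intro a b ha hb j
    rw [coeff_mul]
    exact IsIntegral.sum _ fun c _ => (ha _).mul (hb _)
  · intro j
    rw [coeff_one]
    split_ifs
    · exact isIntegral_one
    · exact isIntegral_zero

theorem rootMult_prod {W ι : Type*} [Field W] (S : Finset ι) (p : ι → W[X]) (a : W)
    (h : ∀ i ∈ S, p i ≠ 0) :
    rootMultiplicity a (∏ i ∈ S, p i) = ∑ i ∈ S, rootMultiplicity a (p i) := by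
  classical
  induction S using Finset.induction_on with
  | empty => simp
  | insert b S hb ih =>
    rw [Finset.prod_insert hb, Finset.sum_insert hb, rootMultiplicity_mul,
      ih fun i hi => h i (Finset.mem_insert_of_mem hi)]
    exact mul_ne_zero (h b (Finset.mem_insert_self _ _))
      (Finset.prod_ne_zero_iff.2 fun i hi => h i (Finset.mem_insert_of_mem hi))

theorem descend {F E W : Type*} [Field F] [CharZero F] [Field E] [Field W] [IsAlgClosed W]
    [Algebra F E] [Algebra F W] [FiniteDimensional F E] (G : E[X]) :
    ∃ n : F[X], n.map (algebraMap F W) = ∏ s : E →ₐ[F] W, G.map (s : E →+* W) := by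
  classical
  set Q := ∏ s : E →ₐ[F] W, G.map (s : E →+* W) with hQ
  have : CharZero W := charZero_of_injective_algebraMap (algebraMap F W).injective
  set S := Finset.range (Q.natDegree + 1) with hS
  have hi : Set.InjOn (fun i : ℕ => (i : F)) S := fun a _ b _ h => Nat.cast_injective h
  have hi' : Set.InjOn (fun i : ℕ => (i : W)) S := fun a _ b _ h => Nat.cast_injective h
  refine ⟨Lagrange.interpolate S (fun i : ℕ => (i : F))
    (fun i : ℕ => Algebra.norm F (G.eval (i : E))), ?_⟩
  refine Polynomial.eq_of_degrees_lt_of_eval_index_eq S hi' ?_ ?_ fun i hiS => ?_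
  · exact degree_map_le.trans_lt (Lagrange.degree_interpolate_lt _ hi)
  · rw [hS, Finset.card_range]
    exact degree_le_natDegree.trans_lt (by exact_mod_cast Nat.lt_succ_self _)
  · have e1 : ((i : ℕ) : W) = algebraMap F W (i : F) := by simp
    rw [e1, eval_map, eval₂_at_apply, Lagrange.eval_interpolate_at_node _ hi hiS,
      Algebra.norm_eq_prod_embeddings F W, hQ, eval_prod]
    refine Finset.prod_congr rfl fun s _ => ?_
    have e2 : algebraMap F W (i : F) = (s : E →+* W) (i : E) := by simp
    rw [e2, eval_map, eval₂_at_apply]; rfl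

theorem scaled_int {R F E W : Type*} [CommRing R] [Field F] [CharZero F] [Field E] [Field W]
    [IsAlgClosed W] [Algebra F E] [Algebra F W] [FiniteDimensional F E] [Algebra R F] [Algebra R E]
    [Algebra R W] [IsScalarTower R F E] [IsScalarTower R F W] (G : E[X]) (n : F[X])
    (hn : n.map (algebraMap F W) = ∏ s : E →ₐ[F] W, G.map (s : E →+* W)) (c : F)
    (h : ∀ j, IsIntegral R (algebraMap F E c * G.coeff j)) (j : ℕ) :
    IsIntegral R (c ^ Module.finrank F E * n.coeff j) := by
  have h1 := coeff_prod_int (R := R) Finset.univ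
    (fun s : E →ₐ[F] W => C (algebraMap F W c) * G.map (s : E →+* W)) (fun s _ j => by
      rw [coeff_C_mul, coeff_map]
      have := (h j).map (s.restrictScalars R)
      simpa using this) j
  rw [Finset.prod_mul_distrib, ← hn, Finset.prod_const, Finset.card_univ, AlgHom.card, ← C_pow,
    coeff_C_mul, coeff_map, ← map_pow, ← map_mul] at h1
  exact (isIntegral_algebraMap_iff (algebraMap F W).injective).1 h1

open Classical in
/-- The valuation `2 ^ totalDegree`. -/
noncomputable def dv (K : Type*) [Field K] : Valuation (BB K) NNReal where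
  toFun b := if b = 0 then 0 else 2 ^ b.totalDegree
  map_zero' := by simp
  map_one' := by simp
  map_mul' a b := by
    by_cases ha : a = 0
    · simp [ha]
    by_cases hb : b = 0
    · simp [hb]
    rw [if_neg (mul_ne_zero ha hb), if_neg ha, if_neg hb,
      MvPolynomial.totalDegree_mul_of_isDomain ha hb, pow_add]
  map_add_le_max' a b := by
    by_cases hab : a + b = 0
    · simp [hab]
    by_cases ha : a = 0
    · simp [ha]
    by_cases hb : b = 0
    · simp [hb]
    rw [if_neg hab, if_neg ha, if_neg hb]
    have := MvPolynomial.totalDegree_add a b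
    rcases le_max_iff.1 this with h | h
    · exact le_max_of_le_left (pow_le_pow_right₀ (by norm_num) h)
    · exact le_max_of_le_right (pow_le_pow_right₀ (by norm_num) h)

theorem dv_ne {K : Type*} [Field K] {b : BB K} (hb : b ≠ 0) : dv K b = 2 ^ b.totalDegree := by
  exact if_neg hb

theorem dv_supp (K : Type*) [Field K] : nonZeroDivisors (BB K) ≤ (dv K).supp.primeCompl := by
  intro b hb h
  have h1 : dv K b = 0 := h
  rw [dv_ne (nonZeroDivisors.ne_zero hb)] at h1
  exact absurd h1 (by positivity)

end NormAux

open NormAux in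
theorem norm_poly {K F E : Type*} [Field K] [CharZero K] [Field F] [Field E]
    [Algebra (BB K) F] [IsFractionRing (BB K) F] [Algebra F E] [Algebra (BB K) E]
    [IsScalarTower (BB K) F E] [Algebra K E] [IsScalarTower K (BB K) E] [FiniteDimensional F E]
    (d : ℕ) (G : E[X]) (hG : G ≠ 0)
    (hc : ∀ j, Ctl K (algebraMap (BB K) E (MvPolynomial.X 0))
      (algebraMap (BB K) E (MvPolynomial.X 1)) d (G.coeff j)) :
    ∃ (n : (BB K)[X]) (G' : E[X]), (∀ j, IsIntegral (BB K) (G'.coeff j)) ∧
      G * G' = n.map (algebraMap (BB K) E) ∧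
      (∀ j, (n.coeff j).totalDegree ≤ Module.finrank F E * d) ∧
      ∀ τ : F, rootMultiplicity (algebraMap F E τ) (G * G') =
        Module.finrank F E * rootMultiplicity (algebraMap F E τ) G := by
  classical
  have hinj : Function.Injective (algebraMap (BB K) F) := IsFractionRing.injective _ _
  have : CharZero F := charZero_of_injective_algebraMap hinj
  obtain ⟨n0, hn0⟩ := descend (F := F) (W := AlgebraicClosure E) G
  have hKE : ∀ k : K, algebraMap K E k = algebraMap (BB K) E (MvPolynomial.C k) := fun k =>
    IsScalarTower.algebraMap_apply K (BB K) E k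
  have hGint : ∀ j, IsIntegral (BB K) (G.coeff j) := by
    intro j
    have := hc j 1
    rw [one_pow, one_mul, one_mul, one_mul] at this
    refine int_of_adjoin _ (fun k => by rw [hKE]; exact isIntegral_algebraMap) ?_ this
    intro t ht
    rcases ht with rfl | rfl | rfl
    · exact isIntegral_one
    · exact isIntegral_algebraMap
    · exact isIntegral_algebraMap
  have hn0int : ∀ j, n0.coeff j ∈ Set.range (algebraMap (BB K) F) := by
    intro j
    have := scaled_int (R := BB K) G n0 hn0 1 (fun j => by simpa using hGint j) j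
    rw [one_pow, one_mul] at this
    exact IsIntegrallyClosed.isIntegral_iff.1 this
  obtain ⟨n, hn⟩ : ∃ n : (BB K)[X], n.map (algebraMap (BB K) F) = n0 :=
    (mem_lifts n0).1 ((lifts_iff_coeff_lifts n0).2 hn0int)
  let s0 : E →ₐ[F] AlgebraicClosure E := IsScalarTower.toAlgHom F E _
  have hmap : (n.map (algebraMap (BB K) E)).map (s0 : E →+* AlgebraicClosure E) =
      ∏ s : E →ₐ[F] AlgebraicClosure E, G.map (s : E →+* AlgebraicClosure E) := by
    rw [← hn0, ← hn, Polynomial.map_map, Polynomial.map_map]
    congr 1
    refine RingHom.ext fun b => ?_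
    simp only [RingHom.comp_apply, RingHom.coe_coe]
    rw [IsScalarTower.algebraMap_apply (BB K) F E, AlgHom.commutes]
  have hdvd : G ∣ n.map (algebraMap (BB K) E) := by
    rw [← map_dvd_map' (s0 : E →+* AlgebraicClosure E), hmap]
    exact Finset.dvd_prod_of_mem _ (Finset.mem_univ s0)
  obtain ⟨G', hG'⟩ := hdvd
  have hne : ∀ s : E →ₐ[F] AlgebraicClosure E, G.map (s : E →+* AlgebraicClosure E) ≠ 0 :=
    fun s => (Polynomial.map_ne_zero_iff (RingHom.injective _)).2 hG
  have hG'map : G'.map (s0 : E →+* AlgebraicClosure E) =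
      ∏ s ∈ Finset.univ.erase s0, G.map (s : E →+* AlgebraicClosure E) := by
    apply mul_left_cancel₀ (hne s0)
    rw [← Polynomial.map_mul, ← hG', hmap,
      Finset.mul_prod_erase _ (fun s : E →ₐ[F] AlgebraicClosure E =>
        G.map (s : E →+* AlgebraicClosure E)) (Finset.mem_univ s0)]
  refine ⟨n, G', fun j => ?_, hG'.symm, fun j => ?_, fun τ => ?_⟩
  · have h1 := coeff_prod_int (R := BB K) (Finset.univ.erase s0)
      (fun s : E →ₐ[F] AlgebraicClosure E => G.map (s : E →+* AlgebraicClosure E))
      (fun s _ j => by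
        rw [coeff_map]
        exact (hGint j).map (s.restrictScalars (BB K))) j
    rw [← hG'map, coeff_map] at h1
    exact (isIntegral_algHom_iff (s0.restrictScalars (BB K)) (RingHom.injective
      (s0 : E →+* AlgebraicClosure E))).1 h1
  · by_cases hb : n.coeff j = 0
    · rw [hb]; simp
    let v : Valuation F NNReal := (dv K).extendToLocalization (dv_supp K) F
    have hv : ∀ b, v (algebraMap (BB K) F b) = dv K b := fun b =>
      Valuation.extendToLocalization_apply_map_apply _ _ _ b
    have hX : ∀ i : Fin 2, v (algebraMap (BB K) F (MvPolynomial.X i)) = 2 := by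
      intro i
      rw [hv, dv_ne (MvPolynomial.X_ne_zero i), MvPolynomial.totalDegree_X, pow_one]
    set c : F := (algebraMap (BB K) F (MvPolynomial.X 0))⁻¹ with hcdef
    have hvc : v c = 2⁻¹ := by rw [hcdef, map_inv₀, hX]
    have hR : ∀ x : F, v x ≤ 1 → IsIntegral v.integer (algebraMap F E x) := fun x hx =>
      isIntegral_algebraMap (R := v.integer) (A := E) (x := ⟨x, hx⟩)
    have hBE : ∀ b, algebraMap (BB K) E b = algebraMap F E (algebraMap (BB K) F b) := fun b =>
      IsScalarTower.algebraMap_apply (BB K) F E b
    have hint : ∀ j, IsIntegral v.integer (algebraMap F E (c ^ d) * G.coeff j) := by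
      intro j
      rw [map_pow]
      refine int_of_adjoin _ (fun k => ?_) ?_ (hc j (algebraMap F E c))
      · rw [hKE, hBE]
        apply hR
        rw [hv]
        by_cases hk : (MvPolynomial.C k : BB K) = 0
        · rw [hk]; simp
        · rw [dv_ne hk, MvPolynomial.totalDegree_C]; simp
      · intro t ht
        rcases ht with rfl | rfl | rfl
        · apply hR; rw [hvc]; exact inv_le_one_of_one_le₀ (by norm_num)
        · rw [hBE, ← map_mul]; apply hR; rw [map_mul, hvc, hX]; simp
        · rw [hBE, ← map_mul]; apply hR; rw [map_mul, hvc, hX]; simp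
    have h1 := scaled_int (R := v.integer) G n0 hn0 (c ^ d) hint j
    have h2 : v ((c ^ d) ^ Module.finrank F E * n0.coeff j) ≤ 1 :=
      (Valuation.integer.integers v).mem_of_integral h1
    rw [← hn, coeff_map, map_mul, map_pow, map_pow, hvc, hv, dv_ne hb, ← pow_mul, inv_pow,
      inv_mul_le_iff₀ (by positivity), mul_one, mul_comm d] at h2
    exact (pow_le_pow_iff_right₀ (by norm_num)).1 h2
  · rw [eq_rootMultiplicity_map (f := (s0 : E →+* AlgebraicClosure E)) (RingHom.injective _),
      ← hG', hmap, rootMult_prod _ _ _ fun s _ => hne s]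
    rw [Finset.sum_congr rfl (g := fun _ => rootMultiplicity (algebraMap F E τ) G)]
    · rw [Finset.sum_const, Finset.card_univ, AlgHom.card, smul_eq_mul]
    · intro s _
      rw [eq_rootMultiplicity_map (p := G) (f := (s : E →+* AlgebraicClosure E))
        (RingHom.injective _)]
      simp only [RingHom.coe_coe, AlgHom.commutes]

end Pool.Agent.H643Z.Gen
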