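import Mathlib
import Pool.Agent.H643Z.Gen.Defs

set_option autoImplicit false

namespace Pool.Agent.H643Z.Gen

open Polynomial Filter Topology

namespace NumericsAux

lemma tri_le (M a : ℕ) : (tri (M - a) : ℝ) ≤ (((M : ℝ) - a) ^ 2 + M) / 2 := by
  have h1 : (tri (M - a) : ℝ) ≤ ((M - a : ℕ) : ℝ) * (((M - a : ℕ) : ℝ) + 1) / 2 := by
    unfold tri
    have := Nat.cast_div_le (α := ℝ) (m := (M - a) * (M - a + 1)) (n := 2)
    push_cast at this ⊢
    exact this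
  rcases le_total a M with h | h
  · rw [Nat.cast_sub h] at h1
    have : (0 : ℝ) ≤ a := Nat.cast_nonneg a
    nlinarith
  · rw [Nat.sub_eq_zero_of_le h] at h1 ⊢
    simp only [tri]
    have : (0 : ℝ) ≤ M := Nat.cast_nonneg M
    have := sq_nonneg ((M : ℝ) - a)
    simp
    positivity

lemma floor_lim (x : ℝ) (hx : 0 ≤ x) :
    Tendsto (fun d : ℕ => (⌊x * (d : ℝ)⌋₊ : ℝ) / d) atTop (𝓝 x) :=
  (tendsto_nat_floor_mul_div_atTop hx).comp tendsto_natCast_atTop_atTop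

lemma limit_ineq {n : ℕ} (κ : ℕ) (t0 eH δ : ℝ) (ht : 0 ≤ t0) (H HJ : ℕ → ℕ) (w : Fin n → ℕ)
    (hH : Tendsto (fun d : ℕ => (H d : ℝ) / (d : ℝ) ^ 2) atTop (𝓝 (eH / 2)))
    (hJ : Tendsto (fun d : ℕ => (HJ d : ℝ) / (d : ℝ)) atTop (𝓝 δ))
    (h : ∀ d s M : ℕ, t0 * d < M → H d ≤ s * HJ (d + s * κ) + ∑ i, tri (M - s * w i))
    (x : ℝ) (hx : 0 ≤ x) :
    eH / 2 ≤ x * δ * (1 + x * κ) + ∑ i, (t0 - x * w i) ^ 2 / 2 := by
  set s : ℕ → ℕ := fun d => ⌊x * (d : ℝ)⌋₊ with hs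
  set M : ℕ → ℕ := fun d => ⌊t0 * (d : ℝ)⌋₊ + 1 with hM
  have hinv : Tendsto (fun d : ℕ => ((d : ℝ))⁻¹) atTop (𝓝 0) := tendsto_inv_atTop_nhds_zero_nat
  have l1 : Tendsto (fun d : ℕ => (s d : ℝ) / d) atTop (𝓝 x) := floor_lim x hx
  have l2 : Tendsto (fun d : ℕ => (M d : ℝ) / d) atTop (𝓝 t0) := by
    have := (floor_lim t0 ht).add hinv
    rw [add_zero] at this
    refine this.congr fun d => ?_
    simp only [hM]
    push_cast
    ring
  have l3 : Tendsto (fun d : ℕ => d + s d * κ) atTop atTop :=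
    tendsto_atTop_mono (fun d => Nat.le_add_right _ _) tendsto_id
  have l4 := hJ.comp l3
  have l5 : Tendsto (fun d : ℕ => (s d : ℝ) / d * ((HJ (d + s d * κ) : ℝ) / ((d + s d * κ : ℕ) : ℝ)) *
      (1 + (s d : ℝ) / d * κ) +
      ∑ i, (((M d : ℝ) / d - (s d : ℝ) / d * w i) ^ 2 + (M d : ℝ) / d * (d : ℝ)⁻¹) / 2) atTop
      (𝓝 (x * δ * (1 + x * κ) + ∑ i : Fin n, ((t0 - x * w i) ^ 2 + t0 * 0) / 2)) := by
    refine ((l1.mul l4).mul (tendsto_const_nhds.add (l1.mul_const _))).add ?_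
    refine tendsto_finsetSum _ fun i _ => ?_
    exact (((l2.sub (l1.mul_const _)).pow 2).add (l2.mul hinv)).div_const 2
  simp only [mul_zero, add_zero] at l5
  refine le_of_tendsto_of_tendsto hH l5 ?_
  filter_upwards [eventually_gt_atTop 0] with d hd
  have hd' : (0 : ℝ) < d := by exact_mod_cast hd
  have h1 := h d (s d) (M d) (by
    simp only [hM]; push_cast; exact Nat.lt_floor_add_one _)
  have h2 : (H d : ℝ) ≤ s d * HJ (d + s d * κ) +
      ∑ i, (((M d : ℝ) - (s d * w i : ℕ)) ^ 2 + M d) / 2 := by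
    have : (H d : ℝ) ≤ s d * HJ (d + s d * κ) + ∑ i, (tri (M d - s d * w i) : ℝ) := by
      exact_mod_cast h1
    exact this.trans (add_le_add le_rfl (Finset.sum_le_sum fun i _ => tri_le _ _))
  rw [div_le_iff₀ (by positivity), add_mul, Finset.sum_mul]
  refine h2.trans (le_of_eq ?_)
  have hd2 : ((d + s d * κ : ℕ) : ℝ) ≠ 0 := by
    have : 0 < d + s d * κ := by omega
    exact_mod_cast this.ne'
  congr 1
  · have : (1 + (s d : ℝ) / d * κ) = ((d + s d * κ : ℕ) : ℝ) / d := by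
      push_cast; field_simp
    rw [this]
    field_simp
  · refine Finset.sum_congr rfl fun i _ => ?_
    push_cast
    field_simp

end NumericsAux

theorem numerics (k κ e : ℕ) (he : 0 < e) : ∃ N0 : ℕ, ∀ n : ℕ, N0 ≤ n → ∀ σ : ℝ,
    0 < (n : ℝ) - σ → (n : ℝ) - σ ≤ 1 / (n : ℝ) ^ (2 * k + 1) →
    ∀ (eH δ : ℝ) (H HJ : ℕ → ℕ) (w : Fin n → ℕ), (e : ℝ) ≤ eH →
      Tendsto (fun d : ℕ => (H d : ℝ) / (d : ℝ) ^ 2) atTop (𝓝 (eH / 2)) →
      Tendsto (fun d : ℕ => (HJ d : ℝ) / (d : ℝ)) atTop (𝓝 δ) →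
      (∀ d s M : ℕ, ((e * d : ℕ) : ℝ) < M * Real.sqrt (σ * e) →
        H d ≤ s * HJ (d + s * κ) + ∑ i, tri (M - s * w i)) →
      Real.sqrt (eH / n) * ∑ i, (w i : ℝ) ≤ (1 + 1 / (n : ℝ) ^ k) * δ := by
  refine ⟨max (e + 2) (8 * κ + 4), fun n hn σ h1 h2 eH δ H HJ w heH hH hJ h => ?_⟩
  have hn1 : (e : ℝ) + 2 ≤ n := by exact_mod_cast (le_max_left _ _).trans hn
  have hn2 : 8 * (κ : ℝ) + 4 ≤ n := by exact_mod_cast (le_max_right _ _).trans hn
  have he' : (0 : ℝ) < e := by exact_mod_cast he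
  have hn0 : (1 : ℝ) ≤ n := by linarith
  have hnp : (0 : ℝ) < n := by linarith
  set ε : ℝ := 1 / (n : ℝ) ^ k with hε
  have hε0 : 0 < ε := by positivity
  have hε1 : ε ≤ 1 := by
    rw [hε, div_le_one (by positivity)]; exact one_le_pow₀ hn0
  have h3 : (n : ℝ) - σ ≤ ε ^ 2 / n := by
    refine h2.trans (le_of_eq ?_)
    rw [hε]; field_simp; ring
  have h4 : ε ^ 2 / n ≤ 1 := by
    rw [div_le_one hnp]; nlinarith
  have hσ : (e : ℝ) < σ := by linarith
  have hσ0 : 0 < σ := by linarith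
  set t0 : ℝ := Real.sqrt (e / σ) with ht0
  have ht : 0 < t0 := Real.sqrt_pos.mpr (by positivity)
  have ht2 : σ * t0 ^ 2 = e := by
    rw [ht0, Real.sq_sqrt (by positivity)]; field_simp
  have ht1 : t0 ≤ 1 := by
    rw [ht0]; exact Real.sqrt_le_one.mpr ((div_le_one hσ0).mpr hσ.le)
  have hsq : t0 * Real.sqrt (σ * e) = e := by
    rw [ht0, ← Real.sqrt_mul (by positivity)]
    have : (e : ℝ) / σ * (σ * e) = e ^ 2 := by field_simp
    rw [this, Real.sqrt_sq he'.le]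
  have key := NumericsAux.limit_ineq κ t0 eH δ ht.le H HJ w hH hJ (fun d s M hM => h d s M (by
    have hp : 0 < Real.sqrt (σ * e) := Real.sqrt_pos.mpr (by positivity)
    have := mul_lt_mul_of_pos_right hM hp
    push_cast
    calc (e : ℝ) * d = t0 * d * Real.sqrt (σ * e) := by rw [mul_right_comm, hsq]
      _ < _ := this))
  have hδ : 0 ≤ δ := ge_of_tendsto' hJ fun d => by positivity
  have h5 : Real.sqrt (eH / n) ≤ t0 := by
    have := key 0 le_rfl
    simp only [zero_mul, sub_zero, zero_add, Finset.sum_const, Finset.card_univ, Fintype.card_fin,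
      nsmul_eq_mul] at this
    rw [Real.sqrt_le_left ht.le, div_le_iff₀ hnp]
    linarith
  set W : ℝ := ∑ i, (w i : ℝ) with hW
  have hW0 : 0 ≤ W := Finset.sum_nonneg fun i _ => Nat.cast_nonneg _
  by_contra hcon
  have hlt : (1 + ε) * δ < t0 * W :=
    (not_le.mp hcon).trans_le (mul_le_mul_of_nonneg_right h5 hW0)
  have hWp : 0 < W := by
    by_contra hle
    have : W = 0 := le_antisymm (not_lt.mp hle) hW0
    rw [this, mul_zero] at hlt
    nlinarith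
  have hW1 : 1 ≤ W := by
    have e1 : W = ((∑ i, w i : ℕ) : ℝ) := by rw [hW]; push_cast; rfl
    rw [e1] at hWp ⊢
    have : 0 < ∑ i, w i := by exact_mod_cast hWp
    exact_mod_cast this
  have hsum : ∑ i, (w i : ℝ) ^ 2 ≤ W ^ 2 :=
    Finset.sum_sq_le_sq_sum_of_nonneg fun i _ => Nat.cast_nonneg _
  set c : ℝ := 2 * κ + 1 with hc
  have hκ : (0 : ℝ) ≤ κ := Nat.cast_nonneg κ
  have hc0 : 0 < c := by positivity
  set y : ℝ := ε / (2 * c) with hy
  have hy0 : 0 < y := by positivity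
  set x : ℝ := y * t0 / W with hx
  have hx0 : 0 < x := by positivity
  have hxW : x * W = y * t0 := by rw [hx]; field_simp
  have h6 := key x hx0.le
  have h7 : ∑ i, (t0 - x * w i) ^ 2 / 2 =
      (n * t0 ^ 2 - 2 * t0 * x * W + x ^ 2 * ∑ i, (w i : ℝ) ^ 2) / 2 := by
    have : ∀ i, (t0 - x * w i) ^ 2 / 2 = t0 ^ 2 / 2 - t0 * x * w i + x ^ 2 / 2 * (w i : ℝ) ^ 2 :=
      fun i => by ring
    simp_rw [this]
    rw [Finset.sum_add_distrib, Finset.sum_sub_distrib, ← Finset.mul_sum, ← Finset.mul_sum]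
    simp only [Finset.sum_const, Finset.card_univ, Fintype.card_fin, nsmul_eq_mul]
    ring
  rw [h7] at h6
  have hδW : δ ≤ W ^ 2 := by nlinarith
  have h8 : x ^ 2 * (2 * κ * δ + ∑ i, (w i : ℝ) ^ 2) ≤ (y * t0) ^ 2 * c := by
    rw [← hxW, mul_pow, mul_assoc (x ^ 2)]
    apply mul_le_mul_of_nonneg_left _ (sq_nonneg x)
    nlinarith
  have h9 : t0 * W * ε < 2 * (t0 * W - δ) := by
    have a1 : 0 ≤ t0 * W * ε * (1 - ε) :=
      mul_nonneg (by positivity) (sub_nonneg.mpr hε1)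
    have a2 : 0 < (1 + ε) * (2 * (t0 * W - δ) - t0 * W * ε) := by
      have : (1 + ε) * (2 * (t0 * W - δ) - t0 * W * ε) =
        2 * (t0 * W - (1 + ε) * δ) + t0 * W * ε * (1 - ε) := by ring
      rw [this]; linarith
    have a3 := (mul_pos_iff_of_pos_left (by linarith : 0 < 1 + ε)).mp a2
    linarith
  have h10 : y * t0 ^ 2 * ε < 2 * x * (t0 * W - δ) := by
    have := mul_lt_mul_of_pos_left h9 hx0
    calc y * t0 ^ 2 * ε = x * (t0 * W * ε) := by
          rw [show x * (t0 * W * ε) = (x * W) * t0 * ε by ring, hxW]; ring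
      _ < _ := by linarith
  have h11 : y * t0 ^ 2 * ε < t0 ^ 2 * (n - σ) + (y * t0) ^ 2 * c := by nlinarith
  have h12 : y * ε < (n - σ) + y ^ 2 * c := by
    have hp : 0 < t0 ^ 2 := by positivity
    apply lt_of_mul_lt_mul_left _ hp.le
    nlinarith
  have h13 : y * ε - y ^ 2 * c = ε ^ 2 / (4 * c) := by rw [hy]; field_simp; ring
  have h14 : ε ^ 2 / n ≤ ε ^ 2 / (4 * c) :=
    div_le_div_of_nonneg_left (sq_nonneg _) (by positivity) (by rw [hc]; linarith)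
  linarith

end Pool.Agent.H643Z.Gen
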