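import Mathlib
import Pool.Agent.H643Z.Gen.Defs

set_option autoImplicit false

namespace Pool.Agent.H643Z.Gen

open Polynomial Filter Topology

namespace TransAux

section
variable {K A : Type*} [Field K] [CommRing A] [Algebra K A] {N : ℕ} (x : Fin N → A)

theorem mem_Fil {d : ℕ} {g : A} : g ∈ Fil K x d ↔
    ∃ f : MvPolynomial (Fin N) K, f.totalDegree ≤ d ∧ MvPolynomial.aeval x f = g := by
  simp only [Fil, Submodule.mem_map, MvPolynomial.mem_restrictTotalDegree,
    AlgHom.toLinearMap_apply]

theorem Fil_mono {d e : ℕ} (h : d ≤ e) {g : A} (hg : g ∈ Fil K x d) : g ∈ Fil K x e := by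
  obtain ⟨f, hf, rfl⟩ := (mem_Fil x).1 hg
  exact (mem_Fil x).2 ⟨f, hf.trans h, rfl⟩

theorem Fil_mul {d e : ℕ} {g h : A} (hg : g ∈ Fil K x d) (hh : h ∈ Fil K x e) :
    g * h ∈ Fil K x (d + e) := by
  obtain ⟨f, hf, rfl⟩ := (mem_Fil x).1 hg
  obtain ⟨f', hf', rfl⟩ := (mem_Fil x).1 hh
  exact (mem_Fil x).2 ⟨f * f', (MvPolynomial.totalDegree_mul _ _).trans (add_le_add hf hf'),
    map_mul _ _ _⟩

theorem Fil_one : (1 : A) ∈ Fil K x 0 :=
  (mem_Fil x).2 ⟨1, by simp, map_one _⟩

theorem Fil_pow {g : A} (hg : g ∈ Fil K x 1) (n : ℕ) : g ^ n ∈ Fil K x n := by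
  induction n with
  | zero => simpa using Fil_one x
  | succ n ih => rw [pow_succ]; exact Fil_mul x ih hg

theorem Fil_bound
    (hx : Function.Surjective (MvPolynomial.aeval x : MvPolynomial (Fin N) K →ₐ[K] A))
    {ι : Type*} [Fintype ι] (b : ι → A) : ∃ c : ℕ, ∀ i, b i ∈ Fil K x c := by
  choose q hq using fun i => hx (b i)
  refine ⟨Finset.univ.sup fun i => (q i).totalDegree, fun i => ?_⟩
  exact (mem_Fil x).2 ⟨q i, Finset.le_sup (f := fun i => (q i).totalDegree) (Finset.mem_univ i),
    hq i⟩

theorem der_aeval (D : Derivation K A A) (f : MvPolynomial (Fin N) K) :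
    D (MvPolynomial.aeval x f) =
      ∑ i, MvPolynomial.aeval x (MvPolynomial.pderiv i f) * D (x i) := by
  classical
  induction f using MvPolynomial.induction_on with
  | C a => simp
  | add p q hp hq => simp [hp, hq, add_mul, Finset.sum_add_distrib]
  | mul_X p j hp =>
    simp only [map_mul, MvPolynomial.aeval_X, Derivation.leibniz, smul_eq_mul, hp, map_add,
      add_mul, Finset.sum_add_distrib, MvPolynomial.pderiv_X]
    congr 1
    · rw [Finset.sum_eq_single j]
      · simp
      · intro i _ hi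
        simp [hi.symm]
      · simp
    · rw [Finset.mul_sum]
      exact Finset.sum_congr rfl fun i _ => by ring

end

theorem pderiv_deg {K σ : Type*} [Field K] (f : MvPolynomial σ K) (i : σ)
    (h : MvPolynomial.pderiv i f ≠ 0) :
    (MvPolynomial.pderiv i f).totalDegree + 1 ≤ f.totalDegree := by
  classical
  have hne : (MvPolynomial.pderiv i f).support.Nonempty := by
    simpa [Finset.nonempty_iff_ne_empty] using h
  obtain ⟨m, hm, hm'⟩ := Finset.exists_mem_eq_sup _ hne (fun s : σ →₀ ℕ => s.sum fun _ e => e)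
  have h1 : m + Finsupp.single i 1 ∈ f.support := by
    rw [MvPolynomial.mem_support_iff] at hm ⊢
    rw [MvPolynomial.coeff_pderiv] at hm
    exact left_ne_zero_of_mul hm
  have h2 := MvPolynomial.le_totalDegree h1
  rw [Finsupp.sum_add_index' (by simp) (by simp)] at h2
  have h3 : (MvPolynomial.pderiv i f).totalDegree = m.sum fun _ e => e := hm'
  rw [h3]
  simpa using h2

theorem pderiv_deg_le {K σ : Type*} [Field K] (f : MvPolynomial σ K) (i : σ) :
    (MvPolynomial.pderiv i f).totalDegree ≤ f.totalDegree := by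
  by_cases h : MvPolynomial.pderiv i f = 0
  · simp [h]
  · have := pderiv_deg f i h
    omega

theorem eq_C {K σ : Type*} [Field K] [CharZero K] (f : MvPolynomial σ K)
    (h : ∀ i, MvPolynomial.pderiv i f = 0) : f = MvPolynomial.C (f.coeff 0) := by
  classical
  ext m
  rw [MvPolynomial.coeff_C]
  split_ifs with hm
  · rw [hm]
  · obtain ⟨i, hi⟩ : ∃ i, m i ≠ 0 := by
      by_contra hc
      push Not at hc
      exact hm (Finsupp.ext fun i => (hc i).symm)
    have h1 := MvPolynomial.coeff_pderiv (i := i) f (m - Finsupp.single i 1)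
    rw [h i, tsub_add_cancel_of_le (by
      rw [Finsupp.single_le_iff]; omega)] at h1
    simp only [MvPolynomial.coeff_zero] at h1
    have h2 : (((m - Finsupp.single i 1 : σ →₀ ℕ) i : K) + 1) ≠ 0 := Nat.cast_add_one_ne_zero _
    exact (mul_eq_zero.1 h1.symm).resolve_right h2

theorem algMap_eq {K A : Type*} [Field K] [CommRing A] [Algebra K A]
    [Algebra (BB K) A] [IsScalarTower K (BB K) A] (f : BB K) :
    algebraMap (BB K) A f =
      MvPolynomial.aeval (fun j => algebraMap (BB K) A (MvPolynomial.X j)) f := by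
  have : IsScalarTower.toAlgHom K (BB K) A =
      MvPolynomial.aeval (fun j => algebraMap (BB K) A (MvPolynomial.X j)) := by
    ext j
    simp
  exact DFunLike.congr_fun this f

theorem two_sum (n : ℕ) : 2 * ∑ k ∈ Finset.range (n + 1), (k + 1) = (n + 1) * (n + 2) := by
  induction n with
  | zero => simp
  | succ n ih => rw [Finset.sum_range_succ, mul_add, ih]; ring

end TransAux

open TransAux

theorem exists_transversal {K A : Type*} [Field K] [CharZero K] [CommRing A] [Algebra K A]
    [Algebra (BB K) A] [IsScalarTower K (BB K) A] (Δ : A) (D : Fin 2 → Derivation K A A)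
    (hD : ∀ i j, D i (algebraMap (BB K) A (MvPolynomial.X j)) = if i = j then Δ else 0)
    (J : Ideal A) [J.IsPrime] (hJ : Algebra.trdeg K (A ⧸ J) = 1) (hΔ : Δ ∉ J) :
    ∃ b, ∃ g ∈ J, D b g ∉ J := by
  classical
  by_contra hcon
  push Not at hcon
  have hex : ∃ n : ℕ, ∃ f : BB K, f ≠ 0 ∧ algebraMap (BB K) A f ∈ J ∧ f.totalDegree = n := by
    by_contra hno
    push Not at hno
    have hai : AlgebraicIndependent K (fun j : Fin 2 =>
        Ideal.Quotient.mk J (algebraMap (BB K) A (MvPolynomial.X j))) := by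
      rw [algebraicIndependent_iff]
      intro p hp
      by_contra hp0
      refine hno _ p hp0 ?_ rfl
      rw [← Ideal.Quotient.eq_zero_iff_mem, algMap_eq, ← hp]
      have h1 : (Ideal.Quotient.mkₐ K J).comp
          (MvPolynomial.aeval (fun j => algebraMap (BB K) A (MvPolynomial.X j))) =
          MvPolynomial.aeval (fun j : Fin 2 =>
            Ideal.Quotient.mk J (algebraMap (BB K) A (MvPolynomial.X j))) := by
        ext j
        simp
      exact DFunLike.congr_fun h1 p
    have := hai.lift_cardinalMk_le_trdeg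
    rw [hJ] at this
    simp at this
  obtain ⟨f, hf0, hfJ, hfn⟩ := Nat.find_spec hex
  have hder : ∀ b, D b (algebraMap (BB K) A f) =
      algebraMap (BB K) A (MvPolynomial.pderiv b f) * Δ := by
    intro b
    rw [algMap_eq f, der_aeval, Finset.sum_eq_single b]
    · rw [hD, if_pos rfl, ← algMap_eq]
    · intro i _ hi
      rw [hD, if_neg (Ne.symm hi), mul_zero]
    · simp
  have hz : ∀ b, MvPolynomial.pderiv b f = 0 := by
    intro b
    by_contra hb
    have h1 := hcon b _ hfJ
    rw [hder] at h1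
    have h2 := (Ideal.IsPrime.mem_or_mem inferInstance h1).resolve_right hΔ
    have h3 := pderiv_deg f b hb
    exact Nat.find_min hex (m := (MvPolynomial.pderiv b f).totalDegree) (by omega)
      ⟨_, hb, h2, rfl⟩
  have hc := eq_C f hz
  have hc0 : f.coeff 0 ≠ 0 := by
    intro h
    rw [h, map_zero] at hc
    exact hf0 hc
  have hu : IsUnit (algebraMap (BB K) A f) := by
    rw [hc]
    exact ((IsUnit.mk0 _ hc0).map MvPolynomial.C).map _
  exact Ideal.IsPrime.ne_top inferInstance (J.eq_top_of_isUnit_mem hfJ hu)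

theorem exists_shift {K A : Type*} [Field K] [CommRing A] [Algebra K A] {N : ℕ} (x : Fin N → A)
    (hx : Function.Surjective (MvPolynomial.aeval x : MvPolynomial (Fin N) K →ₐ[K] A))
    (D : Fin 2 → Derivation K A A) :
    ∃ κ : ℕ, ∀ b d, ∀ g ∈ Fil K x d, D b g ∈ Fil K x (d + κ) := by
  obtain ⟨c, hc⟩ := Fil_bound x hx (fun p : Fin 2 × Fin N => D p.1 (x p.2))
  refine ⟨c, fun b d g hg => ?_⟩
  obtain ⟨f, hf, rfl⟩ := (mem_Fil x).1 hg
  rw [der_aeval]
  refine Submodule.sum_mem _ fun i _ => Fil_mul x ?_ (hc (b, i))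
  exact (mem_Fil x).2 ⟨_, (pderiv_deg_le f i).trans hf, rfl⟩

theorem finrank_le_degree {K A F E : Type*} [Field K] [CommRing A] [IsDomain A] [Algebra K A]
    [Algebra (BB K) A] [IsScalarTower K (BB K) A] [Field F] [Field E]
    [Algebra (BB K) F] [IsFractionRing (BB K) F] [Algebra F E] [Algebra (BB K) E]
    [IsScalarTower (BB K) F E] [Algebra A E] [IsFractionRing A E] [IsScalarTower (BB K) A E]
    [FiniteDimensional F E] {N : ℕ} (x : Fin N → A)
    (hx : Function.Surjective (MvPolynomial.aeval x : MvPolynomial (Fin N) K →ₐ[K] A))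
    (hz : ∀ j, algebraMap (BB K) A (MvPolynomial.X j) ∈ Fil K x 1) {eH : ℝ}
    (hH : Tendsto (fun d : ℕ => (Module.finrank K (Fil K x d) : ℝ) / (d : ℝ) ^ 2) atTop
      (𝓝 (eH / 2))) : (Module.finrank F E : ℝ) ≤ eH := by
  classical
  set e := Module.finrank F E with he
  let β := Module.finBasis F E
  obtain ⟨s, hs⟩ := IsLocalization.exist_integer_multiples_of_finite (nonZeroDivisors A)
    (fun i => β i)
  choose b hb using hs
  have hs0 : algebraMap A E (s : A) ≠ 0 :=
    IsFractionRing.to_map_ne_zero_of_mem_nonZeroDivisors s.2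
  have hF : LinearIndependent F (fun i => algebraMap A E (b i)) := by
    have h1 := β.linearIndependent.map' (LinearMap.mulLeft F (algebraMap A E (s : A)))
      (LinearMap.ker_eq_bot.2 (mul_right_injective₀ hs0))
    have h2 : (fun i => algebraMap A E (b i)) =
        (LinearMap.mulLeft F (algebraMap A E (s : A))) ∘ β := by
      ext i
      simp only [Function.comp_apply, LinearMap.mulLeft_apply]
      rw [hb i, Algebra.smul_def]
    rw [h2]
    exact h1
  have hB : LinearIndependent (BB K) (fun i => algebraMap A E (b i)) := by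
    refine hF.restrict_scalars ?_
    intro p q hpq
    simp only [← Algebra.algebraMap_eq_smul_one] at hpq
    exact IsFractionRing.injective (BB K) F hpq
  have hA : LinearIndependent (BB K) b :=
    LinearIndependent.of_comp (IsScalarTower.toAlgHom (BB K) A E).toLinearMap hB
  obtain ⟨c, hc⟩ := Fil_bound x hx b
  have key : ∀ n : ℕ, (n + 1) * (n + 2) * e ≤ 2 * Module.finrank K (Fil K x (n + c)) := by
    intro n
    let S : Finset (Σ _ : ℕ, ℕ) :=
      (Finset.range (n + 1)).sigma fun k => Finset.range (k + 1)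
    let m : S → (Fin 2 →₀ ℕ) := fun p => Finsupp.single 0 p.1.2 + Finsupp.single 1 (p.1.1 - p.1.2)
    have hm : Function.Injective m := by
      rintro ⟨⟨k, a⟩, hk⟩ ⟨⟨l, d⟩, hl⟩ h
      have h0 := DFunLike.congr_fun h 0
      have h1 := DFunLike.congr_fun h 1
      simp only [m, Finsupp.add_apply, Finsupp.single_eq_same] at h0 h1
      rw [Finsupp.single_eq_of_ne (by decide), Finsupp.single_eq_of_ne (by decide)] at h0 h1
      have hk' := hk
      have hl' := hl
      simp only [S, Finset.mem_sigma, Finset.mem_range] at hk' hl'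
      simp only [add_zero, zero_add] at h0 h1
      subst h0
      obtain rfl : k = l := by omega
      rfl
    have hmon : LinearIndependent K (fun p : S => (MvPolynomial.monomial (m p) (1 : K) : BB K)) := by
      have := (MvPolynomial.basisMonomials (Fin 2) K).linearIndependent.comp m hm
      have h2 : (fun p : S => (MvPolynomial.monomial (m p) (1 : K) : BB K)) =
          (MvPolynomial.basisMonomials (Fin 2) K) ∘ m := by
        ext1 p
        simp
      rw [h2]
      exact this
    have hli := linearIndependent_smul hmon hA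
    have hmem : ∀ p : S × Fin (Module.finrank F E),
        (MvPolynomial.monomial (m p.1) (1 : K) : BB K) • b p.2 ∈ Fil K x (n + c) := by
      rintro ⟨⟨⟨k, a⟩, hk⟩, i⟩
      have hk' := hk
      simp only [S, Finset.mem_sigma, Finset.mem_range] at hk'
      rw [Algebra.smul_def]
      refine Fil_mul x ?_ (hc i)
      have : (MvPolynomial.monomial (Finsupp.single 0 a + Finsupp.single 1 (k - a)) (1 : K) :
          BB K) = MvPolynomial.X 0 ^ a * MvPolynomial.X 1 ^ (k - a) := by
        rw [MvPolynomial.X_pow_eq_monomial, MvPolynomial.X_pow_eq_monomial,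
          MvPolynomial.monomial_mul, one_mul]
      simp only [m]
      rw [this, map_mul, map_pow, map_pow]
      exact Fil_mono x (by omega) (Fil_mul x (Fil_pow x (hz 0) a) (Fil_pow x (hz 1) (k - a)))
    have hli2 : LinearIndependent K (fun p : S × Fin (Module.finrank F E) =>
        (⟨_, hmem p⟩ : Fil K x (n + c))) :=
      LinearIndependent.of_comp (Fil K x (n + c)).subtype hli
    have : Module.Finite K (Fil K x (n + c)) := by
      unfold Fil
      infer_instance
    have hcard := hli2.fintype_card_le_finrank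
    rw [Fintype.card_prod, Fintype.card_fin, Fintype.card_coe] at hcard
    have hS : S.card = ∑ k ∈ Finset.range (n + 1), (k + 1) := by
      simp [S, Finset.card_sigma]
    rw [← two_sum, ← hS, mul_assoc]
    exact Nat.mul_le_mul_left 2 hcard
  have hlim : Tendsto (fun d : ℕ => (e : ℝ) / 2 * (1 - (c : ℝ) / d) ^ 2) atTop
      (𝓝 ((e : ℝ) / 2 * (1 - 0) ^ 2)) :=
    tendsto_const_nhds.mul ((tendsto_const_nhds.sub (tendsto_const_div_atTop_nhds_zero_nat
      (c : ℝ))).pow 2)
  have hle : (e : ℝ) / 2 * (1 - 0) ^ 2 ≤ eH / 2 := by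
    refine le_of_tendsto_of_tendsto hlim hH ?_
    filter_upwards [eventually_ge_atTop (c + 1)] with d hd
    obtain ⟨n, rfl⟩ : ∃ n, d = n + c := ⟨d - c, by omega⟩
    have h1 : ((n + 1 : ℝ) * (n + 2) * e) ≤ 2 * (Module.finrank K (Fil K x (n + c)) : ℝ) := by
      exact_mod_cast key n
    have hpos : (0 : ℝ) < ((n + c : ℕ) : ℝ) := by
      have : 0 < n + c := by omega
      exact_mod_cast this
    rw [le_div_iff₀ (by positivity)]
    have h2 : (1 - (c : ℝ) / ((n + c : ℕ) : ℝ)) * ((n + c : ℕ) : ℝ) = n := by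
      field_simp
      push_cast
      ring
    have h3 : (e : ℝ) / 2 * (1 - (c : ℝ) / ((n + c : ℕ) : ℝ)) ^ 2 * ((n + c : ℕ) : ℝ) ^ 2 =
        (e : ℝ) / 2 * (n : ℝ) ^ 2 := by
      rw [mul_assoc, ← mul_pow, h2]
    rw [h3]
    have he0 : (0 : ℝ) ≤ e := Nat.cast_nonneg _
    have hn0 : (0 : ℝ) ≤ n := Nat.cast_nonneg _
    nlinarith [mul_nonneg he0 hn0]
  linarith

end Pool.Agent.H643Z.Gen
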